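import Mathlib

set_option autoImplicit false

namespace Pool.Agent.X105.CS

open MeasureTheory Set Filter Topology
open scoped Pointwise

variable {d : ℕ}

/-- The union of the coordinate half-lines `{t e_i : t ≤ x_i}`. -/
def rays (x : Fin d → ℝ) : Set (Fin d → ℝ) :=
  {y | ∃ i, ∃ t : ℝ, t ≤ x i ∧ y = Pi.single i t}

/-- The closed convex hull of the coordinate half-lines: the value of `X` at `ξ = x`. -/
def hull (x : Fin d → ℝ) : Set (Fin d → ℝ) := closure (convexHull ℝ (rays x))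

/-- Sets of `R^d`, with the Effros σ-algebra (generated by the hitting events of open sets). -/
def CSet (d : ℕ) : Type := Set (Fin d → ℝ)

instance : MeasurableSpace (CSet d) :=
  MeasurableSpace.generateFrom
    {S : Set (CSet d) | ∃ G : Set (Fin d → ℝ), IsOpen G ∧
      S = {F : CSet d | ((show Set (Fin d → ℝ) from F) ∩ G).Nonempty}}

/-- Equality in distribution of two random closed sets. -/
def EqLaw {Ω Ω' : Type} [MeasurableSpace Ω] [MeasurableSpace Ω']
    (P : Measure Ω) (A : Ω → Set (Fin d → ℝ)) (P' : Measure Ω') (B : Ω' → Set (Fin d → ℝ)) :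
    Prop :=
  ∀ S : Set (CSet d), MeasurableSet S →
    P {ω | (show CSet d from A ω) ∈ S} = P' {ω | (show CSet d from B ω) ∈ S}

/-- The random closed convex set `X = hull ξ`, `ξ ~ μ`, is convex-stable. -/
def ConvexStable (μ : Measure (Fin d → ℝ)) : Prop :=
  ∀ n : ℕ, 1 ≤ n → ∃ a : ℝ, 0 < a ∧ ∃ K : Set (Fin d → ℝ),
    IsCompact K ∧ Convex ℝ K ∧ K.Nonempty ∧
    EqLaw μ (fun x => a • hull x)
      (Measure.pi fun _ : Fin n => μ) (fun ω => closure (convexHull ℝ (⋃ k, hull (ω k))) + K)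

lemma hull_closed (x : Fin d → ℝ) : IsClosed (hull x) := isClosed_closure

lemma hull_convex (x : Fin d → ℝ) : Convex ℝ (hull x) := (convex_convexHull ℝ _).closure

lemma rays_subset_hull (x : Fin d → ℝ) : rays x ⊆ hull x :=
  (subset_convexHull ℝ _).trans subset_closure

lemma hull_min {x : Fin d → ℝ} {T : Set (Fin d → ℝ)} (h : rays x ⊆ T) (hc : IsClosed T)
    (hv : Convex ℝ T) : hull x ⊆ T :=
  closure_minimal (convexHull_min h hv) hc

lemma rays_mono {x x' : Fin d → ℝ} (h : ∀ i, x i ≤ x' i) : rays x ⊆ rays x' := by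
  rintro y ⟨i, t, ht, rfl⟩
  exact ⟨i, t, ht.trans (h i), rfl⟩

lemma hull_mono {x x' : Fin d → ℝ} (h : ∀ i, x i ≤ x' i) : hull x ⊆ hull x' :=
  closure_mono (convexHull_mono (rays_mono h))

lemma rays_smul {a : ℝ} (ha : 0 < a) (x : Fin d → ℝ) : rays (a • x) = a • rays x := by
  ext y
  constructor
  · rintro ⟨i, t, ht, rfl⟩
    refine ⟨Pi.single i (a⁻¹ * t), ⟨i, a⁻¹ * t, ?_, rfl⟩, ?_⟩
    · rw [inv_mul_le_iff₀ ha]; exact ht
    · show a • (Pi.single i (a⁻¹ * t) : Fin d → ℝ) = _
      rw [← Pi.single_smul, smul_eq_mul, mul_inv_cancel_left₀ ha.ne']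
  · rintro ⟨_, ⟨i, t, ht, rfl⟩, rfl⟩
    refine ⟨i, a * t, ?_, ?_⟩
    · exact mul_le_mul_of_nonneg_left ht ha.le
    · show a • (Pi.single i t : Fin d → ℝ) = _
      rw [← Pi.single_smul, smul_eq_mul]

lemma hull_smul {a : ℝ} (ha : 0 < a) (x : Fin d → ℝ) : a • hull x = hull (a • x) := by
  unfold hull
  rw [rays_smul ha, convexHull_smul, closure_smul₀]

lemma hull_iUnion {n : ℕ} (hn : 1 ≤ n) (ω : Fin n → Fin d → ℝ) :
    closure (convexHull ℝ (⋃ k, hull (ω k))) = hull (fun i => ⨆ k, ω k i) := by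
  have : Nonempty (Fin n) := ⟨⟨0, hn⟩⟩
  apply Subset.antisymm
  · refine closure_minimal (convexHull_min (iUnion_subset fun k => ?_) (hull_convex _))
      (hull_closed _)
    exact hull_mono fun i => le_ciSup (Finite.bddAbove_range fun k => ω k i) k
  · apply closure_mono
    apply convexHull_mono
    rintro y ⟨i, t, ht, rfl⟩
    obtain ⟨k, hk⟩ := exists_eq_ciSup_of_finite (f := fun k => ω k i)
    have ht' : t ≤ ⨆ k, ω k i := ht
    refine mem_iUnion.2 ⟨k, rays_subset_hull _ ⟨i, t, ?_, rfl⟩⟩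
    rw [← hk] at ht'
    exact ht'

lemma hull_pos {x : Fin d → ℝ} (h : ∃ i, 0 ≤ x i) : hull x = hull (fun i => max (x i) 0) := by
  apply Subset.antisymm
  · exact hull_mono fun i => le_max_left _ _
  · refine hull_min ?_ (hull_closed _) (hull_convex _)
    rintro y ⟨j, t, ht, rfl⟩
    rcases le_or_gt t (x j) with h1 | h1
    · exact rays_subset_hull _ ⟨j, t, h1, rfl⟩
    · have ht0 : t ≤ 0 := by
        rcases le_max_iff.1 ht with h2 | h2
        · linarith
        · exact h2
      obtain ⟨i, hi⟩ := h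
      have hz : (0 : Fin d → ℝ) ∈ hull x :=
        rays_subset_hull _ ⟨i, 0, hi, by simp⟩
      have hx : (Pi.single j (x j) : Fin d → ℝ) ∈ hull x :=
        rays_subset_hull _ ⟨j, x j, le_rfl, rfl⟩
      have hxj : x j < 0 := lt_of_lt_of_le h1 ht0
      have hθ0 : 0 ≤ t / x j := div_nonneg_of_nonpos ht0 hxj.le
      have hθ1 : t / x j ≤ 1 := by
        rw [div_le_one_of_neg hxj]
        exact h1.le
      have := hull_convex x hx hz hθ0 (by linarith : (0:ℝ) ≤ 1 - t / x j) (by ring)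
      have e : (t / x j) • (Pi.single j (x j) : Fin d → ℝ) + (1 - t / x j) • (0 : Fin d → ℝ)
          = Pi.single j t := by
        rw [smul_zero, add_zero, ← Pi.single_smul, smul_eq_mul, div_mul_cancel₀ _ hxj.ne]
      rw [e] at this
      exact this

/-- The linear functional `y ↦ ∑ u_i y_i`. -/
def dot (u y : Fin d → ℝ) : ℝ := ∑ i, u i * y i

lemma dot_single (u : Fin d → ℝ) (i : Fin d) (t : ℝ) : dot u (Pi.single i t) = u i * t := by
  unfold dot
  rw [Finset.sum_eq_single i]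
  · simp
  · intro j _ hj
    simp [hj]
  · simp

lemma dot_add (u y z : Fin d → ℝ) : dot u (y + z) = dot u y + dot u z := by
  simp [dot, mul_add, Finset.sum_add_distrib]

lemma dot_smul (u y : Fin d → ℝ) (c : ℝ) : dot u (c • y) = c * dot u y := by
  simp only [dot, Pi.smul_apply, smul_eq_mul, Finset.mul_sum]
  exact Finset.sum_congr rfl fun i _ => by ring

lemma continuous_dot (u : Fin d → ℝ) : Continuous (dot u) := by
  unfold dot
  fun_prop

/-- The support function of `hull x`. -/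
noncomputable def Z (x u : Fin d → ℝ) : ℝ := ⨆ i, u i * x i

lemma le_Z (x u : Fin d → ℝ) (i : Fin d) : u i * x i ≤ Z x u :=
  le_ciSup (Finite.bddAbove_range fun i => u i * x i) i

lemma Z_eq [Nonempty (Fin d)] (x u : Fin d → ℝ) : ∃ i, u i * x i = Z x u :=
  exists_eq_ciSup_of_finite (f := fun i => u i * x i)

lemma hull_dot_le [Nonempty (Fin d)] {x u y : Fin d → ℝ} (hu : ∀ i, 0 ≤ u i) (hy : y ∈ hull x) :
    dot u y ≤ Z x u := by
  have : hull x ⊆ {y | dot u y ≤ Z x u} := by
    refine hull_min ?_ (isClosed_le (continuous_dot u) continuous_const) ?_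
    · rintro y ⟨i, t, ht, rfl⟩
      show dot u _ ≤ _
      rw [dot_single]
      exact (mul_le_mul_of_nonneg_left ht (hu i)).trans (le_Z x u i)
    · intro y hy z hz α β hα hβ hαβ
      show dot u _ ≤ _
      rw [dot_add, dot_smul, dot_smul]
      have h1 : dot u y ≤ Z x u := hy
      have h2 : dot u z ≤ Z x u := hz
      calc α * dot u y + β * dot u z ≤ α * Z x u + β * Z x u := by gcongr
        _ = Z x u := by rw [← add_mul, hαβ, one_mul]
  exact this hy

/-- The support function of a set, with values in the extended reals. -/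
noncomputable def suppE (u : Fin d → ℝ) (F : CSet d) : EReal :=
  ⨆ y ∈ (show Set (Fin d → ℝ) from F), ((dot u y : ℝ) : EReal)

lemma suppE_of {u : Fin d → ℝ} {F : Set (Fin d → ℝ)} {c : ℝ} (h1 : ∀ y ∈ F, dot u y ≤ c)
    (h2 : ∃ y ∈ F, dot u y = c) : suppE u F = (c : EReal) := by
  apply le_antisymm
  · exact iSup₂_le fun y hy => by exact_mod_cast h1 y hy
  · obtain ⟨y, hy, hyc⟩ := h2
    rw [← hyc]
    exact le_iSup₂ (f := fun (y : Fin d → ℝ) (_ : y ∈ F) => ((dot u y : ℝ) : EReal)) y hy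

/-- The (real) support function of a compact set. -/
noncomputable def H (K : Set (Fin d → ℝ)) (u : Fin d → ℝ) : ℝ := sSup (dot u '' K)

lemma dot_le_H {K : Set (Fin d → ℝ)} (hK : IsCompact K) {u y : Fin d → ℝ} (hy : y ∈ K) :
    dot u y ≤ H K u :=
  le_csSup (hK.image (continuous_dot u)).bddAbove ⟨y, hy, rfl⟩

lemma exists_H {K : Set (Fin d → ℝ)} (hK : IsCompact K) (hne : K.Nonempty) (u : Fin d → ℝ) :
    ∃ y ∈ K, dot u y = H K u := by
  obtain ⟨y, hy, h⟩ := (hK.image (continuous_dot u)).sSup_mem (hne.image _)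
  exact ⟨y, hy, h⟩

lemma suppE_add [Nonempty (Fin d)] {u x : Fin d → ℝ} {K : Set (Fin d → ℝ)}
    (hu : ∀ i, 0 ≤ u i) (hK : IsCompact K) (hne : K.Nonempty) :
    suppE u (hull x + K) = ((Z x u + H K u : ℝ) : EReal) := by
  apply suppE_of
  · rintro _ ⟨y, hy, z, hz, rfl⟩
    show dot u (y + z) ≤ _
    rw [dot_add]
    exact add_le_add (hull_dot_le hu hy) (dot_le_H hK hz)
  · obtain ⟨i, hi⟩ := Z_eq x u
    obtain ⟨z, hz, hzz⟩ := exists_H hK hne u
    refine ⟨Pi.single i (x i) + z, ⟨_, rays_subset_hull _ ⟨i, x i, le_rfl, rfl⟩, z, hz, rfl⟩, ?_⟩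
    rw [dot_add, dot_single, hi, hzz]

lemma suppE_hull [Nonempty (Fin d)] {u x : Fin d → ℝ} (hu : ∀ i, 0 ≤ u i) :
    suppE u (hull x) = ((Z x u : ℝ) : EReal) := by
  apply suppE_of
  · intro y hy
    exact hull_dot_le hu hy
  · obtain ⟨i, hi⟩ := Z_eq x u
    refine ⟨Pi.single i (x i), rays_subset_hull _ ⟨i, x i, le_rfl, rfl⟩, ?_⟩
    rw [dot_single, hi]

lemma Z_smul {a : ℝ} (ha : 0 < a) (x u : Fin d → ℝ) : Z (a • x) u = a * Z x u := by
  unfold Z
  rw [Real.mul_iSup_of_nonneg ha.le]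
  congr 1
  funext i
  simp only [Pi.smul_apply, smul_eq_mul]
  ring

/-! ### Measurability -/

lemma measurableSet_hit (G : Set (Fin d → ℝ)) (hG : IsOpen G) :
    MeasurableSet {F : CSet d | ((show Set (Fin d → ℝ) from F) ∩ G).Nonempty} :=
  MeasurableSpace.measurableSet_generateFrom ⟨G, hG, rfl⟩

lemma measurable_suppE (u : Fin d → ℝ) : Measurable (suppE u) := by
  apply measurable_of_Ioi
  intro s
  have : suppE u ⁻¹' Ioi s
      = {F : CSet d | ((show Set (Fin d → ℝ) from F) ∩ {y | s < ((dot u y : ℝ) : EReal)}).Nonempty} := by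
    ext F
    simp only [mem_preimage, mem_Ioi, suppE, lt_iSup_iff, mem_setOf_eq, exists_prop]
    rfl
  rw [this]
  apply measurableSet_hit
  exact isOpen_lt continuous_const (continuous_coe_real_ereal.comp (continuous_dot u))

/-- real version of the support function -/
noncomputable def suppR (u : Fin d → ℝ) (F : CSet d) : ℝ := (suppE u F).toReal

lemma measurable_suppR (u : Fin d → ℝ) : Measurable (suppR u) :=
  measurable_ereal_toReal.comp (measurable_suppE u)

lemma measurable_hull : Measurable (fun x : Fin d → ℝ => (show CSet d from hull x)) := by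
  apply measurable_generateFrom
  rintro _ ⟨G, hG, rfl⟩
  apply IsOpen.measurableSet
  rw [isOpen_iff_mem_nhds]
  intro x hx
  have hx' : (hull x ∩ G).Nonempty := hx
  unfold hull at hx'
  rw [closure_inter_open_nonempty_iff hG] at hx'
  obtain ⟨y, hy, hyG⟩ := hx'
  obtain ⟨ε, hε, hball⟩ := Metric.isOpen_iff.1 hG y hyG
  rw [Metric.mem_nhds_iff]
  refine ⟨ε / 2, by positivity, ?_⟩
  intro x' hx'
  show (hull x' ∩ G).Nonempty
  have hsub : convexHull ℝ (rays x) ⊆ convexHull ℝ (rays x') + Metric.closedBall 0 (ε / 2) := by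
    refine convexHull_min ?_ ((convex_convexHull ℝ _).add (convex_closedBall _ _))
    rintro _ ⟨i, t, ht, rfl⟩
    refine ⟨Pi.single i (t - ε / 2), subset_convexHull ℝ _ ⟨i, t - ε / 2, ?_, rfl⟩,
      Pi.single i (ε / 2), ?_, ?_⟩
    · have h1 : dist (x' i) (x i) ≤ dist x' x := dist_le_pi_dist x' x i
      have h2 : dist x' x < ε / 2 := hx'
      rw [Real.dist_eq] at h1
      have h3 := abs_le.1 (h1.trans h2.le)
      linarith [h3.1]
    · rw [mem_closedBall_zero_iff, Pi.norm_single, Real.norm_eq_abs, abs_of_pos (by positivity)]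
    · show (Pi.single i (t - ε / 2) : Fin d → ℝ) + Pi.single i (ε / 2) = _
      rw [← Pi.single_add]
      congr 1
      ring
  obtain ⟨y', hy', z, hz, hyz⟩ := hsub hy
  refine ⟨y', subset_closure hy', hball ?_⟩
  have hyz' : y' + z = y := hyz
  rw [Metric.mem_ball, dist_eq_norm, ← hyz']
  have : y' - (y' + z) = -z := by abel
  rw [this, norm_neg]
  have := mem_closedBall_zero_iff.1 hz
  linarith

lemma measurable_addK (K : Set (Fin d → ℝ)) :
    Measurable (fun F : CSet d => (show CSet d from (show Set (Fin d → ℝ) from F) + K)) := by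
  apply measurable_generateFrom
  rintro _ ⟨G, hG, rfl⟩
  have : (fun F : CSet d => (show CSet d from (show Set (Fin d → ℝ) from F) + K)) ⁻¹'
      {F : CSet d | ((show Set (Fin d → ℝ) from F) ∩ G).Nonempty}
      = {F : CSet d | ((show Set (Fin d → ℝ) from F) ∩ (G - K)).Nonempty} := by
    ext F
    constructor
    · rintro ⟨_, ⟨y, hy, z, hz, rfl⟩, hG'⟩
      exact ⟨y, hy, y + z, hG', z, hz, by simp⟩
    · rintro ⟨y, hy, ⟨g, hg, z, hz, hgz⟩⟩
      refine ⟨y + z, ⟨y, hy, z, hz, rfl⟩, ?_⟩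
      have : g - z = y := hgz
      have : y + z = g := by rw [← this]; simp
      rw [this]
      exact hg
  rw [this]
  exact measurableSet_hit _ hG.sub_right

lemma measurable_Z (u : Fin d → ℝ) : Measurable (fun x : Fin d → ℝ => Z x u) := by
  unfold Z
  exact Measurable.iSup fun i => by fun_prop

/-- Equality of laws of measurable functionals of the two random sets. -/
lemma law_eq {Ω Ω' β : Type} [MeasurableSpace Ω] [MeasurableSpace Ω'] [MeasurableSpace β]
    {P : Measure Ω} {A : Ω → Set (Fin d → ℝ)} {P' : Measure Ω'} {B : Ω' → Set (Fin d → ℝ)}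
    (h : EqLaw P A P' B) (Ψ : CSet d → β) (hΨ : Measurable Ψ) (f : Ω → β) (g : Ω' → β)
    (hf : Measurable f) (hg : Measurable g) (hfA : ∀ ω, Ψ (A ω) = f ω)
    (hgB : ∀ ω, Ψ (B ω) = g ω) : P.map f = P'.map g := by
  ext C hC
  rw [Measure.map_apply hf hC, Measure.map_apply hg hC]
  have := h (Ψ ⁻¹' C) (hΨ hC)
  have e1 : {ω | (show CSet d from A ω) ∈ Ψ ⁻¹' C} = f ⁻¹' C := by
    ext ω
    show Ψ (A ω) ∈ C ↔ f ω ∈ C
    rw [hfA]
  have e2 : {ω | (show CSet d from B ω) ∈ Ψ ⁻¹' C} = g ⁻¹' C := by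
    ext ω
    show Ψ (B ω) ∈ C ↔ g ω ∈ C
    rw [hgB]
  rw [e1, e2] at this
  exact this

end Pool.Agent.X105.CS
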