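import Mathlib

set_option autoImplicit false

namespace Pool.Agent.X105.CS

open MeasureTheory Set Filter Topology

lemma pi_all {α : Type} [MeasurableSpace α] (μ : Measure α) [IsProbabilityMeasure μ] (n : ℕ)
    (A : Set α) : (Measure.pi fun _ : Fin n => μ) {ω | ∀ k, ω k ∈ A} = (μ A) ^ n := by
  have : {ω : Fin n → α | ∀ k, ω k ∈ A} = Set.pi univ fun _ => A := by
    ext ω; simp
  rw [this, Measure.pi_pi]
  simp

lemma ae_all {α : Type} [MeasurableSpace α] (μ : Measure α) [IsProbabilityMeasure μ] (n : ℕ)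
    {p : α → Prop} (h : ∀ᵐ z ∂μ, p z) : ∀ᵐ ω ∂(Measure.pi fun _ : Fin n => μ), ∀ k, p (ω k) := by
  rw [MeasureTheory.ae_all_iff]
  intro k
  exact (measurePreserving_eval (fun _ : Fin n => μ) k).quasiMeasurePreserving.ae h

/-- lower endpoint -/
lemma endpoint (μ : Measure ℝ) [IsProbabilityMeasure μ] (h0 : μ (Iio 0) = 0) :
    ∃ l : ℝ, 0 ≤ l ∧ ∀ t, μ (Iio t) = 0 ↔ t ≤ l := by
  set S : Set ℝ := {t | μ (Iio t) = 0} with hS
  have hdown : ∀ s ∈ S, ∀ t ≤ s, t ∈ S := fun s hs t ht =>
    le_antisymm ((measure_mono (Iio_subset_Iio ht)).trans hs.le) bot_le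
  have hbdd : BddAbove S := by
    by_contra hcon
    rw [not_bddAbove_iff] at hcon
    have hall : ∀ t, μ (Iio t) = 0 := by
      intro t
      obtain ⟨s, hs, hts⟩ := hcon t
      exact hdown s hs t hts.le
    have : μ univ = 0 := by
      have hU : (univ : Set ℝ) = ⋃ n : ℕ, Iio (n : ℝ) := by
        ext x
        simp only [mem_univ, mem_iUnion, mem_Iio, true_iff]
        exact exists_nat_gt x
      rw [hU, measure_iUnion_null_iff]
      exact fun n => hall n
    rw [measure_univ] at this
    exact one_ne_zero this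
  have hne : S.Nonempty := ⟨0, h0⟩
  refine ⟨sSup S, le_csSup hbdd h0, fun t => ⟨fun ht => le_csSup hbdd ht, fun ht => ?_⟩⟩
  have hl : μ (Iio (sSup S)) = 0 := by
    have hU : Iio (sSup S) ⊆ ⋃ n : ℕ, Iio (sSup S - 1 / ((n : ℝ) + 1)) := by
      intro x hx
      have hx' : 0 < sSup S - x := sub_pos.2 hx
      obtain ⟨n, hn⟩ := exists_nat_one_div_lt hx'
      refine mem_iUnion.2 ⟨n, ?_⟩
      show x < _
      linarith
    refine measure_mono_null hU ?_
    rw [measure_iUnion_null_iff]
    intro n
    have hpos : (0 : ℝ) < 1 / ((n : ℝ) + 1) := by positivity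
    obtain ⟨s, hs, hlt⟩ := exists_lt_of_lt_csSup hne (show sSup S - 1 / ((n : ℝ) + 1) < sSup S by linarith)
    exact hdown s hs _ hlt.le
  exact le_antisymm ((measure_mono (Iio_subset_Iio ht)).trans hl.le) bot_le

lemma scale_null (ν : Measure ℝ) [IsProbabilityMeasure ν] (c : ℝ) (hc : 1 < c)
    (h : ∀ t, 0 < t → ν (Ioi t) ≤ ν (Ioi (c * t))) : ∀ t, 0 < t → ν (Ioi t) = 0 := by
  intro t ht
  have hk : ∀ k : ℕ, ν (Ioi t) ≤ ν (Ioi (c ^ k * t)) := by
    intro k
    induction k with
    | zero => simp
    | succ k ih =>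
      refine ih.trans ?_
      have h1 := h (c ^ k * t) (by positivity)
      have h2 : c * (c ^ k * t) = c ^ (k + 1) * t := by ring
      rwa [h2] at h1
  have hanti : Antitone fun k : ℕ => Ioi (c ^ k * t) := by
    intro i j hij
    apply Ioi_subset_Ioi
    exact mul_le_mul_of_nonneg_right (pow_le_pow_right₀ hc.le hij) ht.le
  have hlim := tendsto_measure_iInter_atTop (μ := ν) (s := fun k : ℕ => Ioi (c ^ k * t))
    (fun k => measurableSet_Ioi.nullMeasurableSet) hanti ⟨0, measure_ne_top _ _⟩
  have hempty : (⋂ k : ℕ, Ioi (c ^ k * t)) = ∅ := by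
    ext x
    simp only [mem_iInter, mem_Ioi, mem_empty_iff_false, iff_false, not_forall, not_lt]
    obtain ⟨k, hk⟩ := pow_unbounded_of_one_lt (x / t) hc
    refine ⟨k, ?_⟩
    rw [div_lt_iff₀ ht] at hk
    exact hk.le
  rw [hempty, measure_empty] at hlim
  exact le_antisymm (ge_of_tendsto' hlim hk) bot_le

lemma sup_lt_iff {n : ℕ} (hn : 1 ≤ n) (f : Fin n → ℝ) (t : ℝ) :
    (⨆ k, f k) < t ↔ ∀ k, f k < t := by
  have : Nonempty (Fin n) := ⟨⟨0, hn⟩⟩
  constructor
  · intro h k
    exact (le_ciSup (Finite.bddAbove_range f) k).trans_lt h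
  · intro h
    obtain ⟨k, hk⟩ := exists_eq_ciSup_of_finite (f := f)
    rw [← hk]
    exact h k

lemma sup_sub {n : ℕ} (hn : 1 ≤ n) (f : Fin n → ℝ) (c : ℝ) :
    (⨆ k, (f k - c)) = (⨆ k, f k) - c := by
  have : Nonempty (Fin n) := ⟨⟨0, hn⟩⟩
  apply le_antisymm
  · exact ciSup_le fun k => sub_le_sub_right (le_ciSup (Finite.bddAbove_range f) k) c
  · obtain ⟨k, hk⟩ := exists_eq_ciSup_of_finite (f := f)
    rw [← hk]
    exact le_ciSup (Finite.bddAbove_range fun k => f k - c) k

lemma measurable_sup {n : ℕ} : Measurable (fun ω : Fin n → ℝ => ⨆ k, ω k) :=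
  Measurable.iSup fun k => measurable_pi_apply k

lemma oneD (μ : Measure ℝ) [IsProbabilityMeasure μ] (h0 : μ (Iio 0) = 0)
    (a b : ℕ → ℝ) (ha : ∀ m, 1 ≤ m → 0 < a m)
    (hlaw : ∀ m, 1 ≤ m → μ.map (fun z => a m * z)
      = (Measure.pi fun _ : Fin m => μ).map (fun ω => (⨆ k, ω k) + b m))
    (n : ℕ) (hn : 1 ≤ n) (hb : b n ≠ 0) :
    ∃ l : ℝ, 0 < l ∧ (∀ᵐ z ∂(μ.map fun z => z - l), 0 ≤ z) ∧
      ∀ m, 1 ≤ m → ∃ a : ℝ, 1 ≤ a ∧ (μ.map fun z => z - l).map (fun z => a * z)
        = (Measure.pi fun _ : Fin m => μ.map fun z => z - l).map (fun ω => ⨆ k, ω k) := by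
  obtain ⟨l, hl0, hl⟩ := endpoint μ h0
  have key : ∀ m, 1 ≤ m → a m * l = l + b m := by
    intro m hm
    have ham := ha m hm
    have h1 : ∀ t, t ≤ a m * l ↔ t ≤ l + b m := by
      intro t
      have e1 : (μ.map (fun z => a m * z)) (Iio t) = μ (Iio (t / a m)) := by
        rw [Measure.map_apply (by fun_prop) measurableSet_Iio]
        congr 1
        ext z
        simp only [mem_preimage, mem_Iio]
        rw [lt_div_iff₀ ham, mul_comm]
      have e2 : ((Measure.pi fun _ : Fin m => μ).map (fun ω => (⨆ k, ω k) + b m)) (Iio t)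
          = (μ (Iio (t - b m))) ^ m := by
        rw [Measure.map_apply (measurable_sup.add_const _) measurableSet_Iio, ← pi_all]
        congr 1
        ext ω
        simp only [mem_preimage, mem_Iio]
        rw [← lt_sub_iff_add_lt, sup_lt_iff hm]
        rfl
      have e3 : μ (Iio (t / a m)) = (μ (Iio (t - b m))) ^ m := by rw [← e1, ← e2, hlaw m hm]
      have e4 : μ (Iio (t / a m)) = 0 ↔ μ (Iio (t - b m)) = 0 := by
        rw [e3, pow_eq_zero_iff (by omega)]
      rw [hl, hl, div_le_iff₀ ham, mul_comm l] at e4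
      rw [e4]
      constructor <;> intro h <;> linarith
    exact le_antisymm ((h1 _).1 le_rfl) ((h1 _).2 le_rfl)
  have hl0' : l ≠ 0 := by
    intro h
    have := key n hn
    rw [h] at this
    apply hb
    linarith
  have hlpos : 0 < l := lt_of_le_of_ne hl0 (Ne.symm hl0')
  set ρ : Measure ℝ := μ.map fun z => z - l with hρ
  have hmeas : Measurable fun z : ℝ => z - l := by fun_prop
  have : IsProbabilityMeasure ρ := Measure.isProbabilityMeasure_map hmeas.aemeasurable
  have hnn : ∀ᵐ z ∂ρ, 0 ≤ z := by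
    rw [ae_iff, hρ, Measure.map_apply hmeas (by simp only [not_le]; exact measurableSet_Iio)]
    have : (fun z => z - l) ⁻¹' {z : ℝ | ¬ 0 ≤ z} = Iio l := by
      ext z; simp
    rw [this]
    exact (hl l).2 le_rfl
  have hpi : ∀ m : ℕ, (Measure.pi fun _ : Fin m => ρ)
      = (Measure.pi fun _ : Fin m => μ).map (fun ω k => ω k - l) := by
    intro m
    exact (Measure.pi_map_pi (μ := fun _ : Fin m => μ) (f := fun _ z => z - l)
      (fun _ => hmeas.aemeasurable)).symm
  have hlaw' : ∀ m, 1 ≤ m → ρ.map (fun z => a m * z)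
      = (Measure.pi fun _ : Fin m => ρ).map (fun ω => ⨆ k, ω k) := by
    intro m hm
    rw [hpi, Measure.map_map measurable_sup (by fun_prop), hρ,
      Measure.map_map (by fun_prop) hmeas]
    have h1 := congrArg (fun κ => Measure.map (fun z => z - a m * l) κ) (hlaw m hm)
    rw [Measure.map_map (by fun_prop) (by fun_prop),
      Measure.map_map (by fun_prop) (measurable_sup.add_const _)] at h1
    have e1 : (fun z => z - a m * l) ∘ (fun z => a m * z) = (fun z => a m * z) ∘ fun z => z - l := by
      funext z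
      simp only [Function.comp]
      ring
    have e2 : ((fun z => z - a m * l) ∘ fun ω : Fin m → ℝ => (⨆ k, ω k) + b m)
        = (fun ω => ⨆ k, ω k) ∘ fun ω k => ω k - l := by
      funext ω
      simp only [Function.comp]
      rw [sup_sub hm, key m hm]
      ring
    rw [e1, e2] at h1
    exact h1
  refine ⟨l, hlpos, hnn, ?_⟩
  by_cases hall : ∀ m, 1 ≤ m → 1 ≤ a m
  · exact fun m hm => ⟨a m, hall m hm, hlaw' m hm⟩
  · push_neg at hall
    obtain ⟨m, hm, ham⟩ := hall
    have ham0 := ha m hm
    have hz : ∀ t, 0 < t → ρ (Ioi t) = 0 := by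
      apply scale_null ρ (1 / a m) (by rw [lt_div_iff₀ ham0]; linarith)
      intro t ht
      have e1 : (ρ.map (fun z => a m * z)) (Ioi t) = ρ (Ioi (1 / a m * t)) := by
        rw [Measure.map_apply (by fun_prop) measurableSet_Ioi]
        congr 1
        ext z
        simp only [mem_preimage, mem_Ioi]
        rw [one_div, inv_mul_lt_iff₀ ham0]
      have e2 : ((Measure.pi fun _ : Fin m => ρ).map (fun ω => ⨆ k, ω k)) (Ioi t)
          = (Measure.pi fun _ : Fin m => ρ) {ω | t < ⨆ k, ω k} := by
        rw [Measure.map_apply measurable_sup measurableSet_Ioi]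
        rfl
      rw [← e1, hlaw' m hm, e2]
      have hev := (measurePreserving_eval (fun _ : Fin m => ρ) ⟨0, hm⟩).measure_preimage
        (measurableSet_Ioi (a := t)).nullMeasurableSet
      rw [← hev]
      apply measure_mono
      intro ω hω
      have hω' : t < ω ⟨0, hm⟩ := hω
      exact hω'.trans_le (le_ciSup (Finite.bddAbove_range ω) _)
    have hz0 : ∀ᵐ z ∂ρ, z = 0 := by
      have hpos : ∀ᵐ z ∂ρ, z ≤ 0 := by
        rw [ae_iff]
        have hU : {z : ℝ | ¬ z ≤ 0} ⊆ ⋃ n : ℕ, Ioi (1 / ((n : ℝ) + 1)) := by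
          intro z hz
          have hz' : 0 < z := not_le.1 hz
          obtain ⟨n, hn⟩ := exists_nat_one_div_lt hz'
          exact mem_iUnion.2 ⟨n, hn⟩
        refine measure_mono_null hU ?_
        rw [measure_iUnion_null_iff]
        intro n
        exact hz _ (by positivity)
      filter_upwards [hnn, hpos] with z h1 h2
      exact le_antisymm h2 h1
    intro m' hm'
    have : Nonempty (Fin m') := ⟨⟨0, hm'⟩⟩
    refine ⟨1, le_rfl, ?_⟩
    have e1 : ρ.map (fun z => (1 : ℝ) * z) = ρ.map (fun _ => (0 : ℝ)) := by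
      apply Measure.map_congr
      filter_upwards [hz0] with z hz
      rw [hz, mul_zero]
    have e2 : (Measure.pi fun _ : Fin m' => ρ).map (fun ω => ⨆ k, ω k)
        = (Measure.pi fun _ : Fin m' => ρ).map (fun _ => (0 : ℝ)) := by
      apply Measure.map_congr
      filter_upwards [ae_all ρ m' hz0] with ω hω
      have : (fun k => ω k) = fun _ : Fin m' => (0 : ℝ) := funext hω
      rw [this, ciSup_const]
    rw [e1, e2, Measure.map_const, Measure.map_const, measure_univ, measure_univ]

/-- One-dimensional lemma for the negative case. -/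
lemma oneD' (κ : Measure ℝ) [IsProbabilityMeasure κ] (h0 : κ (Ioi 0) = 0) (a h : ℝ) (ha : 0 < a)
    (hh : h ≤ 0) (n : ℕ) (hn : 1 ≤ n)
    (hlaw : κ.map (fun z => a * z)
      = (Measure.pi fun _ : Fin n => κ).map (fun ω => (⨆ k, ω k) + h)) :
    (a ≤ 1 → h = 0) ∧ (1 < a → ∃ s : ℝ, ∀ᵐ z ∂κ, z = s) := by
  have hneg : Measurable fun z : ℝ => -z := measurable_neg
  have hp : IsProbabilityMeasure (κ.map fun z => -z) :=
    Measure.isProbabilityMeasure_map hneg.aemeasurable
  obtain ⟨w, hw0, hw⟩ := endpoint (κ.map fun z => -z) (by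
    rw [Measure.map_apply hneg measurableSet_Iio]
    convert h0 using 2
    ext z
    simp)
  have hw' : ∀ s, κ (Ioi s) = 0 ↔ -w ≤ s := by
    intro s
    have := hw (-s)
    rw [Measure.map_apply hneg measurableSet_Iio] at this
    have e : (fun z : ℝ => -z) ⁻¹' Iio (-s) = Ioi s := by
      ext z; simp
    rw [e] at this
    rw [this]
    constructor <;> intro h <;> linarith
  set s : ℝ := -w with hs
  have hs0 : s ≤ 0 := by linarith
  have key : a * s = s + h := by
    have h1 : ∀ t, a * s ≤ t ↔ s + h ≤ t := by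
      intro t
      have e1 : (κ.map (fun z => a * z)) (Ioi t) = κ (Ioi (t / a)) := by
        rw [Measure.map_apply (by fun_prop) measurableSet_Ioi]
        congr 1
        ext z
        simp only [mem_preimage, mem_Ioi]
        rw [div_lt_iff₀ ha, mul_comm]
      have e2 : ((Measure.pi fun _ : Fin n => κ).map (fun ω => (⨆ k, ω k) + h)) (Ioi t) = 0
          ↔ κ (Ioi (t - h)) = 0 := by
        rw [Measure.map_apply (measurable_sup.add_const _) measurableSet_Ioi]
        have e3 : (fun ω : Fin n → ℝ => (⨆ k, ω k) + h) ⁻¹' Ioi t = {ω | t - h < ⨆ k, ω k} := by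
          ext ω
          simp only [mem_preimage, mem_Ioi]
          exact sub_lt_iff_lt_add.symm
        rw [e3]
        constructor
        · intro h0
          have hev := (measurePreserving_eval (fun _ : Fin n => κ) ⟨0, hn⟩).measure_preimage
            (measurableSet_Ioi (a := t - h)).nullMeasurableSet
          rw [← hev]
          refine measure_mono_null ?_ h0
          intro ω hω
          have hω' : t - h < ω ⟨0, hn⟩ := hω
          exact hω'.trans_le (le_ciSup (Finite.bddAbove_range ω) _)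
        · intro h0
          have hae : ∀ᵐ z ∂κ, z ≤ t - h := by
            rw [ae_iff]
            have e4 : {z : ℝ | ¬ z ≤ t - h} = Ioi (t - h) := by ext; simp
            rw [e4]
            exact h0
          have := ae_all κ n hae
          rw [ae_iff] at this
          refine measure_mono_null ?_ this
          intro ω hω hcon
          have : Nonempty (Fin n) := ⟨⟨0, hn⟩⟩
          have h2 : (⨆ k, ω k) ≤ t - h := ciSup_le hcon
          exact absurd hω (not_lt.2 h2)
      rw [← hlaw, e1, hw', hw', le_div_iff₀ ha, mul_comm] at e2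
      rw [e2]
      constructor <;> intro h <;> linarith
    exact le_antisymm ((h1 _).2 le_rfl) ((h1 _).1 le_rfl)
  refine ⟨fun ha1 => ?_, fun ha1 => ?_⟩
  · have h2 : (a - 1) * s = h := by linarith
    have h3 : 0 ≤ (a - 1) * s := mul_nonneg_of_nonpos_of_nonpos (by linarith) hs0
    linarith
  · refine ⟨s, ?_⟩
    have hmeas : Measurable fun z : ℝ => s - z := by fun_prop
    have hp' : IsProbabilityMeasure (κ.map fun z => s - z) :=
      Measure.isProbabilityMeasure_map hmeas.aemeasurable
    have hz : ∀ t, 0 < t → (κ.map fun z => s - z) (Ioi t) = 0 := by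
      apply scale_null _ a ha1
      intro t ht
      have e0 : ∀ t, (κ.map fun z => s - z) (Ioi t) = κ (Iio (s - t)) := by
        intro t
        rw [Measure.map_apply hmeas measurableSet_Ioi]
        congr 1
        ext z
        simp only [mem_preimage, mem_Ioi, mem_Iio]
        constructor <;> intro h <;> linarith
      rw [e0, e0]
      have e1 : (κ.map (fun z => a * z)) (Iio (a * s - a * t)) = κ (Iio (s - t)) := by
        rw [Measure.map_apply (by fun_prop) measurableSet_Iio]
        congr 1
        ext z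
        simp only [mem_preimage, mem_Iio]
        rw [← mul_sub, mul_lt_mul_iff_right₀ ha]
      have e2 : ((Measure.pi fun _ : Fin n => κ).map (fun ω => (⨆ k, ω k) + h))
          (Iio (a * s - a * t)) = (κ (Iio (s - a * t))) ^ n := by
        rw [Measure.map_apply (measurable_sup.add_const _) measurableSet_Iio, ← pi_all]
        congr 1
        ext ω
        simp only [mem_preimage, mem_Iio]
        have : a * s - a * t = (s - a * t) + h := by linarith
        rw [this, add_lt_add_iff_right, sup_lt_iff hn]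
        rfl
      rw [← e1, hlaw, e2]
      exact pow_le_of_le_one bot_le prob_le_one (by omega)
    have hle : ∀ᵐ z ∂κ, z ≤ s := by
      rw [ae_iff]
      have e4 : {z : ℝ | ¬ z ≤ s} = Ioi s := by ext; simp
      rw [e4]
      exact (hw' s).2 le_rfl
    have hge : ∀ᵐ z ∂κ, s ≤ z := by
      rw [ae_iff]
      have hU : {z : ℝ | ¬ s ≤ z} ⊆ ⋃ n : ℕ, (fun z => s - z) ⁻¹' Ioi (1 / ((n : ℝ) + 1)) := by
        intro z hz
        have hz' : 0 < s - z := by
          have : z < s := not_le.1 hz
          linarith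
        obtain ⟨n, hn⟩ := exists_nat_one_div_lt hz'
        exact mem_iUnion.2 ⟨n, hn⟩
      refine measure_mono_null hU ?_
      rw [measure_iUnion_null_iff]
      intro n
      have := hz (1 / ((n : ℝ) + 1)) (by positivity)
      rwa [Measure.map_apply hmeas measurableSet_Ioi] at this
    filter_upwards [hle, hge] with z h1 h2
    exact le_antisymm h1 h2

end Pool.Agent.X105.CS
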