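import Pool.Agent.X105.CS.Geo
import Pool.Agent.X105.CS.OneD

set_option autoImplicit false

namespace Pool.Agent.X105.CS

open MeasureTheory Set Filter Topology
open scoped Pointwise

variable {d : ℕ}

/-- coordinatewise maximum of `n` vectors -/
noncomputable def M {n : ℕ} (ω : Fin n → Fin d → ℝ) : Fin d → ℝ := fun i => ⨆ k, ω k i

/-- The law `ν` of a random vector is strictly max-stable: for all `n ≥ 1` there is `a > 0` such
that `a ξ` has the law of the coordinatewise maximum of `n` independent copies of `ξ`. -/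
def StrictMaxStable (ν : Measure (Fin d → ℝ)) : Prop :=
  ∀ n : ℕ, 1 ≤ n → ∃ a : ℝ, 0 < a ∧
    ν.map (fun x => a • x) = (Measure.pi fun _ : Fin n => ν).map (fun ω i => ⨆ k, ω k i)

/-- coordinatewise positive part -/
def pos (x : Fin d → ℝ) : Fin d → ℝ := fun i => max (x i) 0

lemma measurable_pos : Measurable (pos : (Fin d → ℝ) → (Fin d → ℝ)) := by
  unfold pos
  fun_prop

lemma measurable_M {n : ℕ} : Measurable (M : (Fin n → Fin d → ℝ) → (Fin d → ℝ)) := by
  unfold M
  rw [measurable_pi_iff]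
  intro i
  exact Measurable.iSup fun k => (measurable_pi_apply i).comp (measurable_pi_apply k)

/-- convexity data for one `n` -/
structure Dat (μ : Measure (Fin d → ℝ)) (n : ℕ) (a : ℝ) (K : Set (Fin d → ℝ)) : Prop where
  ha : 0 < a
  hKc : IsCompact K
  hKv : Convex ℝ K
  hKn : K.Nonempty
  law : EqLaw μ (fun x => a • hull x)
      (Measure.pi fun _ : Fin n => μ) (fun ω => closure (convexHull ℝ (⋃ k, hull (ω k))) + K)

lemma law_family [Nonempty (Fin d)] {μ : Measure (Fin d → ℝ)} {n : ℕ} (hn : 1 ≤ n) {a : ℝ}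
    {K : Set (Fin d → ℝ)} (D : Dat μ n a K) {ι : Type} (u : ι → Fin d → ℝ)
    (hu : ∀ j i, 0 ≤ u j i) :
    μ.map (fun x j => a * Z x (u j))
      = (Measure.pi fun _ : Fin n => μ).map (fun ω j => Z (M ω) (u j) + H K (u j)) := by
  refine law_eq D.law (fun F j => suppR (u j) F)
    (measurable_pi_iff.2 fun j => measurable_suppR (u j)) _ _ ?_ ?_ ?_ ?_
  · exact measurable_pi_iff.2 fun j => (measurable_Z (u j)).const_mul a
  · exact measurable_pi_iff.2 fun j => ((measurable_Z (u j)).comp measurable_M).add_const _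
  · intro x
    funext j
    show suppR (u j) (a • hull x) = _
    unfold suppR
    rw [hull_smul D.ha, suppE_hull (hu j), EReal.toReal_coe, Z_smul D.ha]
  · intro ω
    funext j
    show suppR (u j) (closure (convexHull ℝ (⋃ k, hull (ω k))) + K) = _
    unfold suppR
    rw [hull_iUnion hn, suppE_add (hu j) D.hKc D.hKn, EReal.toReal_coe]
    rfl

lemma law_one [Nonempty (Fin d)] {μ : Measure (Fin d → ℝ)} {n : ℕ} (hn : 1 ≤ n) {a : ℝ}
    {K : Set (Fin d → ℝ)} (D : Dat μ n a K) (u : Fin d → ℝ) (hu : ∀ i, 0 ≤ u i) :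
    μ.map (fun x => a * Z x u)
      = (Measure.pi fun _ : Fin n => μ).map (fun ω => Z (M ω) u + H K u) := by
  have h := law_family hn D (fun _ : Unit => u) (fun _ => hu)
  have h2 := congrArg (fun κ => Measure.map (fun v : Unit → ℝ => v ()) κ) h
  have m0 : Measurable fun v : Unit → ℝ => v () := measurable_pi_apply ()
  have m1 : Measurable fun (x : Fin d → ℝ) (_ : Unit) => a * Z x u :=
    measurable_pi_iff.2 fun _ => (measurable_Z u).const_mul a
  have m2 : Measurable fun (ω : Fin n → Fin d → ℝ) (_ : Unit) => Z (M ω) u + H K u :=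
    measurable_pi_iff.2 fun _ => ((measurable_Z u).comp measurable_M).add_const _
  rw [Measure.map_map m0 m1, Measure.map_map m0 m2] at h2
  exact h2

/-- unit vector -/
noncomputable def e (i : Fin d) : Fin d → ℝ := Pi.single i 1

lemma e_nonneg (i k : Fin d) : 0 ≤ e i k := by
  unfold e
  by_cases h : k = i
  · subst h; simp
  · simp [h]

lemma Z_e (hd : 2 ≤ d) (x : Fin d → ℝ) (i : Fin d) : Z x (e i) = max (x i) 0 := by
  have : Nontrivial (Fin d) := Fin.nontrivial_iff_two_le.2 hd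
  apply le_antisymm
  · apply ciSup_le
    intro j
    by_cases h : j = i
    · subst h; simp [e]
    · simp [e, h]
  · apply max_le
    · have := le_Z x (e i) i
      simpa [e] using this
    · obtain ⟨j, hj⟩ := exists_ne i
      have := le_Z x (e i) j
      simpa [e, hj] using this

lemma sup_le_iff' {n : ℕ} (hn : 1 ≤ n) (f : Fin n → ℝ) (t : ℝ) :
    (⨆ k, f k) ≤ t ↔ ∀ k, f k ≤ t := by
  have : Nonempty (Fin n) := ⟨⟨0, hn⟩⟩
  exact ⟨fun h k => (le_ciSup (Finite.bddAbove_range f) k).trans h, fun h => ciSup_le h⟩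

lemma sup_max {n : ℕ} (hn : 1 ≤ n) (f : Fin n → ℝ) :
    max (⨆ k, f k) 0 = ⨆ k, max (f k) 0 := by
  have : Nonempty (Fin n) := ⟨⟨0, hn⟩⟩
  apply le_antisymm
  · apply max_le
    · exact ciSup_le fun k => (le_max_left _ _).trans
        (le_ciSup (f := fun k => max (f k) 0) (Finite.bddAbove_range _) k)
    · exact (le_max_right _ _).trans
        (le_ciSup (f := fun k => max (f k) 0) (Finite.bddAbove_range _) ⟨0, hn⟩)
  · exact ciSup_le fun k => max_le_max (le_ciSup (Finite.bddAbove_range f) k) le_rfl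

/-- exchange of suprema -/
lemma Z_M [Nonempty (Fin d)] {n : ℕ} (hn : 1 ≤ n) (ω : Fin n → Fin d → ℝ) {u : Fin d → ℝ}
    (hu : ∀ i, 0 ≤ u i) : Z (M ω) u = ⨆ k, Z (ω k) u := by
  have : Nonempty (Fin n) := ⟨⟨0, hn⟩⟩
  apply le_antisymm
  · apply ciSup_le
    intro i
    obtain ⟨k, hk⟩ := exists_eq_ciSup_of_finite (f := fun k => ω k i)
    have h1 : M ω i = ω k i := hk.symm
    rw [h1]
    exact (le_Z (ω k) u i).trans (le_ciSup (f := fun k => Z (ω k) u) (Finite.bddAbove_range _) k)
  · apply ciSup_le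
    intro k
    obtain ⟨i, hi⟩ := Z_eq (ω k) u
    rw [← hi]
    refine le_trans ?_ (le_Z (M ω) u i)
    exact mul_le_mul_of_nonneg_left (le_ciSup (f := fun k => ω k i) (Finite.bddAbove_range _) k)
      (hu i)

lemma b_zero (hd : 2 ≤ d) [Nonempty (Fin d)] {μ : Measure (Fin d → ℝ)} [IsProbabilityMeasure μ]
    {n : ℕ} (hn : 1 ≤ n) {a : ℝ} {K : Set (Fin d → ℝ)} (D : Dat μ n a K) (i : Fin d)
    (hp : μ {x | x i ≤ 0} ≠ 0) : H K (e i) = 0 ∧ μ {x | x i ≤ 0} = (μ {x | x i ≤ 0}) ^ n := by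
  have hl := law_one hn D (e i) (e_nonneg i)
  have ha := D.ha
  have m1 : Measurable fun x : Fin d → ℝ => a * Z x (e i) := (measurable_Z _).const_mul a
  have m2 : Measurable fun ω : Fin n → Fin d → ℝ => Z (M ω) (e i) + H K (e i) :=
    ((measurable_Z _).comp measurable_M).add_const _
  have l1 : μ.map (fun x => a * Z x (e i)) (Iic 0) = μ {x | x i ≤ 0} := by
    rw [Measure.map_apply m1 measurableSet_Iic]
    congr 1
    ext x
    show a * Z x (e i) ≤ 0 ↔ x i ≤ 0
    rw [Z_e hd, mul_nonpos_iff_pos_imp_nonpos.trans ⟨fun h => h.1 ha, fun h => ⟨fun _ => h, fun h' => ?_⟩⟩]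
    · constructor
      · intro h; exact (le_max_left _ _).trans h
      · intro h; exact max_le h le_rfl
    · exact ha.le
  have l2 : μ.map (fun x => a * Z x (e i)) (Iio 0) = 0 := by
    rw [Measure.map_apply m1 measurableSet_Iio]
    have : (fun x => a * Z x (e i)) ⁻¹' Iio 0 = ∅ := by
      ext x
      simp only [mem_preimage, mem_Iio, mem_empty_iff_false, iff_false, not_lt]
      rw [Z_e hd]
      exact mul_nonneg ha.le (le_max_right _ _)
    rw [this, measure_empty]
  have r0 : (Measure.pi fun _ : Fin n => μ) {ω | M ω i ≤ 0} = (μ {x | x i ≤ 0}) ^ n := by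
    rw [← pi_all]
    congr 1
    ext ω
    exact sup_le_iff' hn _ _
  have hb1 : H K (e i) ≤ 0 := by
    by_contra hcon
    push Not at hcon
    apply hp
    rw [← l1, hl, Measure.map_apply m2 measurableSet_Iic]
    have : (fun ω : Fin n → Fin d → ℝ => Z (M ω) (e i) + H K (e i)) ⁻¹' Iic 0 = ∅ := by
      ext ω
      simp only [mem_preimage, mem_Iic, mem_empty_iff_false, iff_false, not_le]
      rw [Z_e hd]
      have := le_max_right (M ω i) 0
      linarith
    rw [this, measure_empty]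
  have hb2 : 0 ≤ H K (e i) := by
    by_contra hcon
    push Not at hcon
    have h1 : (μ {x | x i ≤ 0}) ^ n = 0 := by
      rw [← r0]
      rw [hl, Measure.map_apply m2 measurableSet_Iio] at l2
      refine measure_mono_null ?_ l2
      intro ω hω
      have hω' : M ω i ≤ 0 := hω
      show Z (M ω) (e i) + H K (e i) < 0
      rw [Z_e hd, max_eq_right hω']
      linarith
    exact hp (pow_eq_zero_iff (by omega) |>.1 h1)
  have hb : H K (e i) = 0 := le_antisymm hb1 hb2
  refine ⟨hb, ?_⟩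
  rw [← r0, ← l1, hl, Measure.map_apply m2 measurableSet_Iic]
  congr 1
  ext ω
  show Z (M ω) (e i) + H K (e i) ≤ 0 ↔ M ω i ≤ 0
  rw [hb, add_zero, Z_e hd]
  exact ⟨fun h => (le_max_left _ _).trans h, fun h => max_le h le_rfl⟩

/-- the test functional `t e_i + e_j` -/
noncomputable def ut (i j : Fin d) (t : ℝ) : Fin d → ℝ := fun k => if k = i then t else if k = j then 1 else 0

lemma ut_nonneg {i j : Fin d} {t : ℝ} (ht : 0 ≤ t) (k : Fin d) : 0 ≤ ut i j t k := by
  unfold ut
  split_ifs <;> linarith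

lemma Z_ut {i j : Fin d} (hij : i ≠ j) {t : ℝ} (ht : 0 < t) {x : Fin d → ℝ} (hi : 0 < x i)
    (hj : 0 < x j) : Z x (ut i j t) = max (t * x i) (x j) := by
  have : Nonempty (Fin d) := ⟨i⟩
  apply le_antisymm
  · apply ciSup_le
    intro k
    unfold ut
    split_ifs with h1 h2
    · subst h1; exact le_max_left _ _
    · subst h2; rw [one_mul]; exact le_max_right _ _
    · rw [zero_mul]; exact hj.le.trans (le_max_right _ _)
  · apply max_le
    · have := le_Z x (ut i j t) i
      simpa [ut] using this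
    · have := le_Z x (ut i j t) j
      simpa [ut, hij.symm] using this

lemma sup_affine {n : ℕ} (hn : 1 ≤ n) (f g : Fin n → ℝ) (c e : ℝ) (hc : 0 ≤ c)
    (h : ∀ k, g k = c * f k + e) : (⨆ k, g k) = c * (⨆ k, f k) + e := by
  have : Nonempty (Fin n) := ⟨⟨0, hn⟩⟩
  apply le_antisymm
  · apply ciSup_le
    intro k
    rw [h k]
    have := mul_le_mul_of_nonneg_left (le_ciSup (Finite.bddAbove_range f) k) hc
    linarith
  · obtain ⟨k, hk⟩ := exists_eq_ciSup_of_finite (f := f)
    rw [← hk, ← h k]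
    exact le_ciSup (Finite.bddAbove_range g) k

lemma ratio (hd : 2 ≤ d) {μ : Measure (Fin d → ℝ)} [IsProbabilityMeasure μ]
    {n : ℕ} (hn : 1 ≤ n) {a : ℝ} {K : Set (Fin d → ℝ)} (D : Dat μ n a K) {i j : Fin d}
    (hij : i ≠ j) (hi : ∀ᵐ x ∂μ, 0 < x i) (hj : ∀ᵐ x ∂μ, 0 < x j) (hb : H K (e i) ≠ 0) :
    ∃ c : ℝ, 0 < c ∧ ∀ᵐ x ∂μ, x j = c * x i := by
  have : Nonempty (Fin d) := ⟨i⟩
  have : Nonempty (Fin n) := ⟨⟨0, hn⟩⟩
  have ha := D.ha
  set P := Measure.pi fun _ : Fin n => μ with hP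
  have hMi : ∀ᵐ ω ∂P, 0 < M ω i := by
    filter_upwards [ae_all μ n hi] with ω hω
    exact (hω ⟨0, hn⟩).trans_le (le_ciSup (f := fun k => ω k i) (Finite.bddAbove_range _) _)
  have hMj : ∀ᵐ ω ∂P, 0 < M ω j := by
    filter_upwards [ae_all μ n hj] with ω hω
    exact (hω ⟨0, hn⟩).trans_le (le_ciSup (f := fun k => ω k j) (Finite.bddAbove_range _) _)
  -- the key identity
  have star : ∀ t : ℝ, 0 < t → ∀ᵐ ω ∂P,
      max (t * M ω i) (M ω j) + H K (ut i j t)
        = max (t * (M ω i + H K (e i))) (M ω j + H K (e j)) := by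
    intro t ht
    set u : Fin 3 → Fin d → ℝ := ![e i, e j, ut i j t] with hu
    have hu0 : ∀ m k, 0 ≤ u m k := by
      intro m k
      fin_cases m
      · exact e_nonneg i k
      · exact e_nonneg j k
      · exact ut_nonneg ht.le k
    have hl := law_family hn D u hu0
    have m1 : Measurable (fun (x : Fin d → ℝ) (m : Fin 3) => a * Z x (u m)) :=
      measurable_pi_iff.2 fun m => (measurable_Z (u m)).const_mul a
    have m2 : Measurable (fun (ω : Fin n → Fin d → ℝ) (m : Fin 3) => Z (M ω) (u m) + H K (u m)) :=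
      measurable_pi_iff.2 fun m => ((measurable_Z (u m)).comp measurable_M).add_const _
    have hC : MeasurableSet {v : Fin 3 → ℝ | v 2 = max (t * v 0) (v 1)} :=
      measurableSet_eq_fun (by fun_prop) (by fun_prop)
    have h1 : ∀ᵐ v ∂(μ.map (fun x m => a * Z x (u m))), v 2 = max (t * v 0) (v 1) := by
      rw [ae_map_iff m1.aemeasurable hC]
      filter_upwards [hi, hj] with x hxi hxj
      show a * Z x (ut i j t) = max (t * (a * Z x (e i))) (a * Z x (e j))
      rw [Z_ut hij ht hxi hxj, Z_e hd, Z_e hd, max_eq_left hxi.le, max_eq_left hxj.le,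
        mul_max_of_nonneg _ _ ha.le]
      congr 1
      ring
    rw [hl, ae_map_iff m2.aemeasurable hC] at h1
    filter_upwards [h1, hMi, hMj] with ω hω h2 h3
    have hω' : Z (M ω) (ut i j t) + H K (ut i j t)
        = max (t * (Z (M ω) (e i) + H K (e i))) (Z (M ω) (e j) + H K (e j)) := hω
    rw [Z_ut hij ht h2 h3, Z_e hd, Z_e hd, max_eq_left h2.le, max_eq_left h3.le] at hω'
    exact hω'
  set bi := H K (e i) with hbi
  set bj := H K (e j) with hbj
  -- dichotomy
  have dich : ∀ t : ℝ, 0 < t → t * bi ≠ bj →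
      (∀ᵐ ω ∂P, t * M ω i ≤ M ω j) ∨ (∀ᵐ ω ∂P, M ω j ≤ t * M ω i) := by
    intro t ht htb
    by_contra hcon
    rw [not_or] at hcon
    obtain ⟨h1, h2⟩ := hcon
    have f1 : ∃ᵐ ω ∂P, ¬ t * M ω i ≤ M ω j := by
      rw [← Filter.not_eventually] at *
      exact h1
    have f2 : ∃ᵐ ω ∂P, ¬ M ω j ≤ t * M ω i := by
      rw [← Filter.not_eventually] at *
      exact h2
    obtain ⟨ω1, g1, s1⟩ := (f1.and_eventually (star t ht)).exists
    obtain ⟨ω2, g2, s2⟩ := (f2.and_eventually (star t ht)).exists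
    push Not at g1 g2
    rw [max_eq_left g1.le] at s1
    rw [max_eq_right g2.le] at s2
    rcases lt_or_gt_of_ne htb with h | h
    · have k1 : bj ≤ H K (ut i j t) := by
        have := le_max_right (t * (M ω2 i + bi)) (M ω2 j + bj)
        linarith
      have k2 : t * M ω1 i + H K (ut i j t) < t * M ω1 i + bj := by
        rw [s1]
        apply max_lt
        · linarith [mul_add t (M ω1 i) bi]
        · linarith
      linarith
    · have k1 : t * bi ≤ H K (ut i j t) := by
        have := le_max_left (t * (M ω1 i + bi)) (M ω1 j + bj)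
        linarith [mul_add t (M ω1 i) bi]
      have k2 : M ω2 j + H K (ut i j t) < M ω2 j + t * bi := by
        rw [s2]
        apply max_lt
        · linarith [mul_add t (M ω2 i) bi]
        · linarith
      linarith
  -- countably many conditions
  have hgood : ∀ᵐ ω ∂P, ∀ t : ℚ, 0 < (t : ℝ) → (t : ℝ) * bi ≠ bj →
      ((∀ᵐ ω' ∂P, (t : ℝ) * M ω' i ≤ M ω' j) → (t : ℝ) * M ω i ≤ M ω j) ∧
      (¬ (∀ᵐ ω' ∂P, (t : ℝ) * M ω' i ≤ M ω' j) → M ω j ≤ (t : ℝ) * M ω i) := by
    rw [MeasureTheory.ae_all_iff]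
    intro t
    by_cases ht : 0 < (t : ℝ)
    swap
    · exact Eventually.of_forall fun ω h => absurd h ht
    by_cases htb : (t : ℝ) * bi ≠ bj
    swap
    · exact Eventually.of_forall fun ω _ h => absurd h htb
    by_cases hQ : ∀ᵐ ω' ∂P, (t : ℝ) * M ω' i ≤ M ω' j
    · filter_upwards [hQ] with ω hω _ _
      exact ⟨fun _ => hω, fun h => absurd hQ h⟩
    · have := (dich t ht htb).resolve_left hQ
      filter_upwards [this] with ω hω _ _
      exact ⟨fun h => absurd h hQ, fun _ => hω⟩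
  obtain ⟨ω0, h0, h0i, h0j⟩ := (hgood.and (hMi.and hMj)).exists
  have hbtw : ∀ r1 r2 : ℝ, 0 < r1 → r1 < r2 → ∃ t : ℚ, 0 < (t : ℝ) ∧ r1 < t ∧ (t : ℝ) < r2 ∧
      (t : ℝ) * bi ≠ bj := by
    intro r1 r2 hr1 hr
    obtain ⟨t1, h1, h2⟩ := exists_rat_btwn hr
    obtain ⟨t2, h3, h4⟩ := exists_rat_btwn h2
    by_cases hc : (t1 : ℝ) * bi = bj
    · refine ⟨t2, by linarith, by linarith, h4, ?_⟩
      intro hc2
      have : ((t2 : ℝ) - t1) * bi = 0 := by rw [sub_mul]; linarith
      rcases mul_eq_zero.1 this with h | h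
      · linarith
      · exact hb h
    · exact ⟨t1, by linarith, h1, h2, hc⟩
  set c : ℝ := M ω0 j / M ω0 i with hc
  have hcpos : 0 < c := div_pos h0j h0i
  have hMc : ∀ᵐ ω ∂P, M ω j = c * M ω i := by
    filter_upwards [hgood, hMi, hMj] with ω hω h1 h2
    rcases lt_trichotomy (M ω j / M ω i) c with h | h | h
    · exfalso
      obtain ⟨t, ht, k1, k2, k3⟩ := hbtw _ _ (div_pos h2 h1) h
      rw [div_lt_iff₀ h1] at k1
      rw [hc, lt_div_iff₀ h0i] at k2
      by_cases hQ : ∀ᵐ ω' ∂P, (t : ℝ) * M ω' i ≤ M ω' j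
      · have := (hω t ht k3).1 hQ
        linarith
      · have := (h0 t ht k3).2 hQ
        linarith
    · rw [div_eq_iff h1.ne'] at h
      exact h
    · exfalso
      obtain ⟨t, ht, k1, k2, k3⟩ := hbtw _ _ hcpos h
      rw [lt_div_iff₀ h1] at k2
      rw [hc, div_lt_iff₀ h0i] at k1
      by_cases hQ : ∀ᵐ ω' ∂P, (t : ℝ) * M ω' i ≤ M ω' j
      · have := (h0 t ht k3).1 hQ
        linarith
      · have := (hω t ht k3).2 hQ
        linarith
  -- transfer to `ξ`
  have htrans : ∀ᵐ x ∂μ, a * x j - bj = c * (a * x i - bi) := by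
    set u : Fin 2 → Fin d → ℝ := ![e i, e j] with hu
    have hu0 : ∀ m k, 0 ≤ u m k := by
      intro m k
      fin_cases m
      · exact e_nonneg i k
      · exact e_nonneg j k
    have hl := law_family hn D u hu0
    have m1 : Measurable (fun (x : Fin d → ℝ) (m : Fin 2) => a * Z x (u m)) :=
      measurable_pi_iff.2 fun m => (measurable_Z (u m)).const_mul a
    have m2 : Measurable (fun (ω : Fin n → Fin d → ℝ) (m : Fin 2) => Z (M ω) (u m) + H K (u m)) :=
      measurable_pi_iff.2 fun m => ((measurable_Z (u m)).comp measurable_M).add_const _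
    have hC : MeasurableSet {v : Fin 2 → ℝ | v 1 - bj = c * (v 0 - bi)} :=
      measurableSet_eq_fun (by fun_prop) (by fun_prop)
    have h1 : ∀ᵐ v ∂(P.map (fun ω m => Z (M ω) (u m) + H K (u m))),
        v 1 - bj = c * (v 0 - bi) := by
      rw [ae_map_iff m2.aemeasurable hC]
      filter_upwards [hMc, hMi, hMj] with ω k1 k2 k3
      show Z (M ω) (e j) + bj - bj = c * (Z (M ω) (e i) + bi - bi)
      rw [Z_e hd, Z_e hd, max_eq_left k2.le, max_eq_left k3.le, k1]
      ring
    rw [← hl, ae_map_iff m1.aemeasurable hC] at h1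
    filter_upwards [h1, hi, hj] with x k1 k2 k3
    have k1' : a * Z x (e j) - bj = c * (a * Z x (e i) - bi) := k1
    rw [Z_e hd, Z_e hd, max_eq_left k2.le, max_eq_left k3.le] at k1'
    exact k1'
  have haff : ∀ᵐ x ∂μ, x j = c * x i + (bj - c * bi) / a := by
    filter_upwards [htrans] with x hx
    field_simp
    linarith
  have hzero : (bj - c * bi) / a = 0 := by
    obtain ⟨ω, k1, k2⟩ := ((ae_all μ n haff).and hMc).exists
    have := sup_affine hn (fun k => ω k i) (fun k => ω k j) c _ hcpos.le k1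
    have k3 : M ω j = c * M ω i + (bj - c * bi) / a := this
    linarith
  refine ⟨c, hcpos, ?_⟩
  filter_upwards [haff] with x hx
  rw [hx, hzero, add_zero]

end Pool.Agent.X105.CS
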