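import Pool.Agent.X105.CS.Nec

set_option autoImplicit false

namespace Pool.Agent.X105.CS

open MeasureTheory Set Filter Topology
open scoped Pointwise

variable {d : ℕ}

/-- Alternative (3): the positive part of `ξ` is `(l + ζ) r` with `l > 0`, a nonzero vector
`r ≥ 0`, and a nonnegative random variable `ζ` (law `ρ`) such that for every `m ≥ 1` there is
`a ≥ 1` with `a ζ` distributed as the maximum of `m` independent copies of `ζ`. -/
def ShiftedType (μ : Measure (Fin d → ℝ)) : Prop :=
  ∃ (l : ℝ) (r : Fin d → ℝ) (ρ : Measure ℝ), 0 < l ∧ (∀ i, 0 ≤ r i) ∧ r ≠ 0 ∧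
    IsProbabilityMeasure ρ ∧ (∀ᵐ z ∂ρ, 0 ≤ z) ∧
    (∀ m : ℕ, 1 ≤ m → ∃ a : ℝ, 1 ≤ a ∧
      ρ.map (fun z => a * z) = (Measure.pi fun _ : Fin m => ρ).map (fun ω => ⨆ k, ω k)) ∧
    μ.map pos = ρ.map (fun z i => (l + z) * r i)

lemma pi_pos {μ : Measure (Fin d → ℝ)} [IsProbabilityMeasure μ] (n : ℕ) :
    (Measure.pi fun _ : Fin n => μ.map pos)
      = (Measure.pi fun _ : Fin n => μ).map (fun ω k => pos (ω k)) := by
  have : IsProbabilityMeasure (μ.map pos) :=
    Measure.isProbabilityMeasure_map measurable_pos.aemeasurable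
  exact (Measure.pi_map_pi (μ := fun _ : Fin n => μ) (f := fun _ => pos)
    (fun _ => measurable_pos.aemeasurable)).symm

lemma caseA (hd : 2 ≤ d) {μ : Measure (Fin d → ℝ)} [IsProbabilityMeasure μ]
    (h : ∀ n : ℕ, 1 ≤ n → ∃ a K, Dat μ n a K) (i0 : Fin d) (hi0 : ∀ᵐ x ∂μ, 0 < x i0) :
    ((∀ᵐ x ∂μ, ∃ i, 0 ≤ x i) ∧ StrictMaxStable (μ.map pos)) ∨ ShiftedType μ := by
  have : Nonempty (Fin d) := ⟨i0⟩
  by_cases hb : ∀ n : ℕ, 1 ≤ n → ∃ a K, Dat μ n a K ∧ ∀ i, H K (e i) = 0
  · left
    refine ⟨by filter_upwards [hi0] with x hx using ⟨i0, hx.le⟩, fun n hn => ?_⟩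
    obtain ⟨a, K, D, hz⟩ := hb n hn
    refine ⟨a, D.ha, ?_⟩
    have hl := law_family hn D (fun j : Fin d => e j) (fun j => e_nonneg j)
    have m3 : Measurable fun (ω : Fin n → Fin d → ℝ) (k : Fin n) => pos (ω k) :=
      measurable_pi_iff.2 fun k => measurable_pos.comp (measurable_pi_apply k)
    have m4 : Measurable fun (ω : Fin n → Fin d → ℝ) (i : Fin d) => ⨆ k, ω k i := measurable_M
    rw [pi_pos, Measure.map_map m4 m3, Measure.map_map (by fun_prop) measurable_pos]
    have e1 : ((fun x : Fin d → ℝ => a • x) ∘ pos) = fun x j => a * Z x (e j) := by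
      funext x j
      rw [Z_e hd]
      rfl
    have e2 : ((fun (ω : Fin n → Fin d → ℝ) (i : Fin d) => ⨆ k, ω k i) ∘
        fun (ω : Fin n → Fin d → ℝ) (k : Fin n) => pos (ω k))
        = fun ω j => Z (M ω) (e j) + H K (e j) := by
      funext ω j
      rw [Z_e hd, hz j, add_zero]
      exact (sup_max hn fun k => ω k j).symm
    rw [e1, e2]
    exact hl
  · right
    push Not at hb
    obtain ⟨n, hn, hbad⟩ := hb
    have h' : ∀ n : ℕ, ∃ a K, 1 ≤ n → Dat μ n a K := by
      intro n
      by_cases hn : 1 ≤ n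
      · obtain ⟨a, K, D⟩ := h n hn
        exact ⟨a, K, fun _ => D⟩
      · exact ⟨0, ∅, fun h => absurd h hn⟩
    choose a K D using h'
    obtain ⟨i, hbi⟩ := hbad (a n) (K n) (D n hn)
    have hi : ∀ᵐ x ∂μ, 0 < x i := by
      rw [ae_iff]
      simp only [not_lt]
      by_contra hcon
      exact hbi (b_zero hd hn (D n hn) i hcon).1
    have hr : ∀ j : Fin d, ∃ r : ℝ, 0 ≤ r ∧ ∀ᵐ x ∂μ, max (x j) 0 = r * x i := by
      intro j
      by_cases hji : i = j
      · subst hji
        refine ⟨1, zero_le_one, ?_⟩
        filter_upwards [hi] with x hx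
        rw [max_eq_left hx.le, one_mul]
      · by_cases hpj : μ {x | x j ≤ 0} = 0
        · have hj : ∀ᵐ x ∂μ, 0 < x j := by
            rw [ae_iff]
            simpa only [not_lt] using hpj
          obtain ⟨c, hc, hcx⟩ := ratio hd hn (D n hn) hji hi hj hbi
          refine ⟨c, hc.le, ?_⟩
          filter_upwards [hcx, hj] with x h1 h2
          rw [max_eq_left h2.le, h1]
        · have h2 := (b_zero hd (by norm_num) (D 2 (by norm_num)) j hpj).2
          have h3 : μ {x | x j ≤ 0} = 1 := by
            rw [pow_two] at h2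
            have h4 : μ {x | x j ≤ 0} * 1 = μ {x | x j ≤ 0} * μ {x | x j ≤ 0} := by
              rw [mul_one]; exact h2
            exact ((ENNReal.mul_right_inj hpj (measure_ne_top _ _)).1 h4).symm
          have hms : MeasurableSet {x : Fin d → ℝ | x j ≤ 0} :=
            measurableSet_le (measurable_pi_apply j) measurable_const
          have hj : ∀ᵐ x ∂μ, x j ≤ 0 := (prob_compl_eq_zero_iff hms).2 h3
          refine ⟨0, le_rfl, ?_⟩
          filter_upwards [hj] with x hx
          rw [max_eq_right hx, zero_mul]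
    choose r hr0 hr using hr
    have mi : Measurable fun x : Fin d → ℝ => x i := measurable_pi_apply i
    set lam : Measure ℝ := μ.map fun x => x i with hlam
    have hprob : IsProbabilityMeasure lam := Measure.isProbabilityMeasure_map mi.aemeasurable
    have hlam0 : lam (Iio 0) = 0 := by
      rw [hlam, Measure.map_apply mi measurableSet_Iio]
      refine measure_mono_null ?_ (ae_iff.1 hi)
      intro x hx
      have hx' : x i < 0 := hx
      show ¬ 0 < x i
      linarith
    have hpi : ∀ m : ℕ, (Measure.pi fun _ : Fin m => lam)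
        = (Measure.pi fun _ : Fin m => μ).map (fun ω k => ω k i) := by
      intro m
      exact (Measure.pi_map_pi (μ := fun _ : Fin m => μ) (f := fun _ x => x i)
        (fun _ => mi.aemeasurable)).symm
    have hlaw : ∀ m : ℕ, 1 ≤ m → lam.map (fun z => a m * z)
        = (Measure.pi fun _ : Fin m => lam).map (fun ω => (⨆ k, ω k) + H (K m) (e i)) := by
      intro m hm
      have hl := law_one hm (D m hm) (e i) (e_nonneg i)
      have m5 : Measurable fun (ω : Fin m → Fin d → ℝ) (k : Fin m) => ω k i :=
        measurable_pi_iff.2 fun k => mi.comp (measurable_pi_apply k)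
      rw [hpi, hlam, Measure.map_map (by fun_prop) mi,
        Measure.map_map (measurable_sup.add_const _) m5]
      have e1 : μ.map ((fun z => a m * z) ∘ fun x : Fin d → ℝ => x i)
          = μ.map (fun x => a m * Z x (e i)) := by
        apply Measure.map_congr
        filter_upwards [hi] with x hx
        rw [Z_e hd, max_eq_left hx.le]
        rfl
      have e2 : (Measure.pi fun _ : Fin m => μ).map
          ((fun ω : Fin m → ℝ => (⨆ k, ω k) + H (K m) (e i)) ∘ fun ω k => ω k i)
          = (Measure.pi fun _ : Fin m => μ).map (fun ω => Z (M ω) (e i) + H (K m) (e i)) := by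
        apply Measure.map_congr
        filter_upwards [ae_all μ m hi] with ω hω
        have : 0 < M ω i := (hω ⟨0, hm⟩).trans_le
          (le_ciSup (f := fun k => ω k i) (Finite.bddAbove_range _) _)
        rw [Z_e hd, max_eq_left this.le]
        rfl
      rw [e1, e2]
      exact hl
    obtain ⟨l, hl, hnn, hst⟩ := oneD lam hlam0 a (fun m => H (K m) (e i))
      (fun m hm => (D m hm).ha) hlaw n hn hbi
    have ml : Measurable fun z : ℝ => z - l := by fun_prop
    refine ⟨l, r, lam.map fun z => z - l, hl, hr0, ?_,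
      Measure.isProbabilityMeasure_map ml.aemeasurable, hnn, hst, ?_⟩
    · intro hr00
      obtain ⟨x, h1, h2⟩ := ((hr i).and hi).exists
      rw [hr00, max_eq_left h2.le] at h1
      simp at h1
      linarith
    · have m6 : Measurable fun (z : ℝ) (j : Fin d) => (l + z) * r j := by
        rw [measurable_pi_iff]
        intro j
        fun_prop
      rw [Measure.map_map m6 ml, hlam, Measure.map_map (m6.comp ml) mi]
      apply Measure.map_congr
      have hall : ∀ᵐ x ∂μ, ∀ j, max (x j) 0 = r j * x i := MeasureTheory.ae_all_iff.2 hr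
      filter_upwards [hall] with x hx
      funext j
      show max (x j) 0 = (l + (x i - l)) * r j
      rw [hx j]
      ring

lemma SMS_const {ν : Measure (Fin d → ℝ)} [IsProbabilityMeasure ν] {c : Fin d → ℝ}
    (h : ∀ᵐ v ∂ν, v = c) : StrictMaxStable ν := by
  intro n hn
  have : Nonempty (Fin n) := ⟨⟨0, hn⟩⟩
  refine ⟨1, one_pos, ?_⟩
  have e1 : ν.map (fun x : Fin d → ℝ => (1 : ℝ) • x) = ν.map (fun _ => c) := by
    apply Measure.map_congr
    filter_upwards [h] with v hv
    rw [hv, one_smul]
  have e2 : (Measure.pi fun _ : Fin n => ν).map (fun ω i => ⨆ k, ω k i)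
      = (Measure.pi fun _ : Fin n => ν).map (fun _ => c) := by
    apply Measure.map_congr
    filter_upwards [ae_all ν n h] with ω hω
    funext i
    have : (fun k => ω k i) = fun _ => c i := by
      funext k
      rw [hω k]
    rw [this, ciSup_const]
  rw [e1, e2, Measure.map_const, Measure.map_const, measure_univ, measure_univ]

/-- test functionals which recover `x i` when all coordinates are negative -/
noncomputable def uu (p : Fin d × ℕ) : Fin d → ℝ := fun k => if k = p.1 then 1 else (p.2 : ℝ) + 1

lemma uu_pos (p : Fin d × ℕ) (k : Fin d) : 0 < uu p k := by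
  unfold uu
  split_ifs <;> positivity

lemma inf_Z [Nonempty (Fin d)] {x : Fin d → ℝ} (hx : ∀ i, x i < 0) (i : Fin d) :
    (⨅ N : ℕ, Z x (uu (i, N))) = x i := by
  have hlow : ∀ N : ℕ, x i ≤ Z x (uu (i, N)) := by
    intro N
    have := le_Z x (uu (i, N)) i
    simpa [uu] using this
  apply le_antisymm
  · obtain ⟨N, hN⟩ := exists_nat_ge (⨆ k, x i / x k)
    have hN' : ∀ k, x i / x k ≤ N := fun k =>
      (le_ciSup (f := fun k => x i / x k) (Finite.bddAbove_range _) k).trans hN
    refine (ciInf_le ⟨x i, ?_⟩ N).trans ?_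
    · rintro _ ⟨N, rfl⟩
      exact hlow N
    · apply ciSup_le
      intro k
      unfold uu
      split_ifs with h1
      · simp only at h1
        rw [h1, one_mul]
      · have h2 := hN' k
        rw [div_le_iff_of_neg (hx k)] at h2
        have h3 := hx k
        simp only
        linarith
  · exact le_ciInf hlow

lemma caseB (hd : 2 ≤ d) {μ : Measure (Fin d → ℝ)} [IsProbabilityMeasure μ]
    (h : ∀ n : ℕ, 1 ≤ n → ∃ a K, Dat μ n a K) (hneg : ∀ i : Fin d, ∀ᵐ x ∂μ, x i ≤ 0) :
    ((∀ᵐ x ∂μ, ∀ i, x i < 0) ∧ StrictMaxStable μ) ∨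
      ((∀ᵐ x ∂μ, ∃ i, 0 ≤ x i) ∧ StrictMaxStable (μ.map pos)) := by
  have : Nonempty (Fin d) := ⟨⟨0, by omega⟩⟩
  have hneg' : ∀ᵐ x ∂μ, ∀ i, x i ≤ 0 := MeasureTheory.ae_all_iff.2 hneg
  have hp1 : ∀ i : Fin d, μ {x | x i ≤ 0} ≠ 0 := by
    intro i hcon
    have h1 := ae_iff.1 (hneg i)
    have h2 : μ univ ≤ μ {x | x i ≤ 0} + μ {x | ¬ x i ≤ 0} := by
      refine (measure_mono ?_).trans (measure_union_le _ _)
      intro x _
      exact le_or_gt (x i) 0 |>.imp id not_le.2
    rw [hcon, h1, measure_univ, add_zero] at h2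
    exact absurd h2 (by simp)
  have Hle : ∀ (n : ℕ) (hn : 1 ≤ n) (a : ℝ) (K : Set (Fin d → ℝ)) (_ : Dat μ n a K)
      (u : Fin d → ℝ), (∀ i, 0 ≤ u i) → H K u ≤ 0 := by
    intro n hn a K D u hu
    obtain ⟨y, hy, hyu⟩ := exists_H D.hKc D.hKn u
    rw [← hyu]
    apply Finset.sum_nonpos
    intro i _
    have h1 : dot (e i) y ≤ H K (e i) := dot_le_H D.hKc hy
    rw [(b_zero hd hn D i (hp1 i)).1] at h1
    have h2 : dot (e i) y = y i := by
      unfold dot e
      rw [Finset.sum_eq_single i]
      · simp
      · intro j _ hj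
        simp [hj]
      · simp
    rw [h2] at h1
    exact mul_nonpos_of_nonneg_of_nonpos (hu i) h1
  have hZneg : ∀ (u : Fin d → ℝ), (∀ i, 0 ≤ u i) → ∀ᵐ x ∂μ, Z x u ≤ 0 := by
    intro u hu
    filter_upwards [hneg'] with x hx
    exact ciSup_le fun i => mul_nonpos_of_nonneg_of_nonpos (hu i) (hx i)
  set one : Fin d → ℝ := fun _ => 1 with hone
  have hone0 : ∀ i, 0 ≤ one i := fun i => zero_le_one
  set q : ENNReal := μ {x | Z x one < 0} with hq
  have hqms : MeasurableSet {x : Fin d → ℝ | Z x one < 0} :=
    measurableSet_lt (measurable_Z _) measurable_const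
  have hqdich : q = 0 ∨ q = 1 := by
    by_cases hq1 : q = 1
    · exact Or.inr hq1
    left
    obtain ⟨a, K, D⟩ := h 2 (by norm_num)
    have ha := D.ha
    have hl := law_one (by norm_num) D one hone0
    have m1 : Measurable fun x : Fin d → ℝ => a * Z x one := (measurable_Z _).const_mul a
    have m2 : Measurable fun ω : Fin 2 → Fin d → ℝ => Z (M ω) one + H K one :=
      ((measurable_Z _).comp measurable_M).add_const _
    have hH : H K one = 0 := by
      apply le_antisymm (Hle 2 (by norm_num) a K D one hone0)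
      by_contra hcon
      push Not at hcon
      have h1 : (Measure.pi fun _ : Fin 2 => μ).map (fun ω => Z (M ω) one + H K one) (Ici 0)
          = 0 := by
        rw [Measure.map_apply m2 measurableSet_Ici]
        have h2 := ae_iff.1 (ae_all μ 2 (hZneg one hone0))
        refine measure_mono_null ?_ h2
        intro ω hω hcon2
        have hω' : 0 ≤ Z (M ω) one + H K one := hω
        have h3 : Z (M ω) one ≤ 0 := by
          rw [Z_M (by norm_num) ω hone0]
          exact ciSup_le hcon2
        linarith
      rw [← hl, Measure.map_apply m1 measurableSet_Ici] at h1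
      apply hq1
      apply (prob_compl_eq_zero_iff hqms).1
      refine measure_mono_null ?_ h1
      intro x hx
      have hx' : ¬ Z x one < 0 := hx
      exact mul_nonneg ha.le (not_lt.1 hx')
    have h1 : q = q ^ 2 := by
      have l1 : μ.map (fun x => a * Z x one) (Iio 0) = q := by
        rw [Measure.map_apply m1 measurableSet_Iio]
        congr 1
        ext x
        show a * Z x one < 0 ↔ Z x one < 0
        constructor
        · intro h
          by_contra hcon
          push Not at hcon
          have := mul_nonneg ha.le hcon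
          linarith
        · intro h
          exact mul_neg_of_pos_of_neg ha h
      have l2 : (Measure.pi fun _ : Fin 2 => μ).map (fun ω => Z (M ω) one + H K one) (Iio 0)
          = q ^ 2 := by
        rw [Measure.map_apply m2 measurableSet_Iio, hq, ← pi_all]
        congr 1
        ext ω
        show Z (M ω) one + H K one < 0 ↔ ∀ k, ω k ∈ {x | Z x one < 0}
        rw [hH, add_zero, Z_M (by norm_num) ω hone0, sup_lt_iff (by norm_num)]
        rfl
      rw [← l2, ← hl, l1]
    by_contra hq0
    apply hq1
    rw [pow_two] at h1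
    have h4 : q * 1 = q * q := by rw [mul_one]; exact h1
    exact ((ENNReal.mul_right_inj hq0 (measure_ne_top _ _)).1 h4).symm
  rcases hqdich with hq0 | hq1
  · right
    have hex : ∀ᵐ x ∂μ, ∃ i, 0 ≤ x i := by
      have h1 : ∀ᵐ x ∂μ, ¬ Z x one < 0 := by
        rw [ae_iff]
        simpa only [not_not] using hq0
      filter_upwards [h1] with x hx
      obtain ⟨i, hi⟩ := Z_eq x one
      refine ⟨i, ?_⟩
      rw [hone, one_mul] at hi
      rw [hi]
      exact not_lt.1 hx
    refine ⟨hex, ?_⟩
    have : IsProbabilityMeasure (μ.map pos) :=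
      Measure.isProbabilityMeasure_map measurable_pos.aemeasurable
    apply SMS_const (c := 0)
    have hms : MeasurableSet {v : Fin d → ℝ | v = 0} := measurableSet_singleton 0
    refine (ae_map_iff measurable_pos.aemeasurable hms).2 ?_
    filter_upwards [hneg'] with x hx
    funext i
    exact max_eq_right (hx i)
  · left
    have hlt : ∀ᵐ x ∂μ, ∀ i, x i < 0 := by
      have h1 : ∀ᵐ x ∂μ, Z x one < 0 := (prob_compl_eq_zero_iff hqms).2 hq1
      filter_upwards [h1] with x hx i
      have := le_Z x one i
      rw [hone, one_mul] at this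
      exact this.trans_lt hx
    refine ⟨hlt, ?_⟩
    by_cases hconst : ∃ c, ∀ᵐ x ∂μ, x = c
    · obtain ⟨c, hc⟩ := hconst
      exact SMS_const hc
    intro n hn
    obtain ⟨a, K, D⟩ := h n hn
    have ha := D.ha
    -- the one-dimensional alternative
    have halt : ∀ u : Fin d → ℝ, (∀ i, 0 ≤ u i) →
        (a ≤ 1 → H K u = 0) ∧ (1 < a → ∃ s : ℝ, ∀ᵐ x ∂μ, Z x u = s) := by
      intro u hu
      have hl := law_one hn D u hu
      have mz : Measurable fun x : Fin d → ℝ => Z x u := measurable_Z u
      have hprob : IsProbabilityMeasure (μ.map fun x => Z x u) :=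
        Measure.isProbabilityMeasure_map mz.aemeasurable
      have h0 : (μ.map fun x => Z x u) (Ioi 0) = 0 := by
        rw [Measure.map_apply mz measurableSet_Ioi]
        refine measure_mono_null ?_ (ae_iff.1 (hZneg u hu))
        intro x hx
        exact not_le.2 hx
      have hpi : (Measure.pi fun _ : Fin n => μ.map fun x => Z x u)
          = (Measure.pi fun _ : Fin n => μ).map (fun ω k => Z (ω k) u) :=
        (Measure.pi_map_pi (μ := fun _ : Fin n => μ) (f := fun _ x => Z x u)
          (fun _ => mz.aemeasurable)).symm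
      have m5 : Measurable fun (ω : Fin n → Fin d → ℝ) (k : Fin n) => Z (ω k) u :=
        measurable_pi_iff.2 fun k => mz.comp (measurable_pi_apply k)
      have hlaw : (μ.map fun x => Z x u).map (fun z => a * z)
          = (Measure.pi fun _ : Fin n => μ.map fun x => Z x u).map
            (fun ω => (⨆ k, ω k) + H K u) := by
        rw [hpi, Measure.map_map (by fun_prop) mz, Measure.map_map (measurable_sup.add_const _) m5]
        have e2 : ((fun ω : Fin n → ℝ => (⨆ k, ω k) + H K u) ∘
            fun (ω : Fin n → Fin d → ℝ) (k : Fin n) => Z (ω k) u)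
            = fun ω => Z (M ω) u + H K u := by
          funext ω
          rw [Z_M hn ω hu]
          rfl
        rw [e2]
        exact hl
      have hfin := oneD' (μ.map fun x => Z x u) h0 a (H K u) ha (Hle n hn a K D u hu) n hn hlaw
      refine ⟨hfin.1, fun ha1 => ?_⟩
      obtain ⟨s, hs⟩ := hfin.2 ha1
      refine ⟨s, ?_⟩
      exact (ae_map_iff mz.aemeasurable (measurableSet_eq_fun measurable_id measurable_const)).1 hs
    have ha1 : a ≤ 1 := by
      by_contra hcon
      push Not at hcon
      apply hconst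
      have h1 : ∀ p : Fin d × ℕ, ∃ s : ℝ, ∀ᵐ x ∂μ, Z x (uu p) = s := fun p =>
        (halt (uu p) fun i => (uu_pos p i).le).2 hcon
      choose s hs using h1
      refine ⟨fun i => ⨅ N : ℕ, s (i, N), ?_⟩
      have h2 : ∀ᵐ x ∂μ, ∀ p, Z x (uu p) = s p := MeasureTheory.ae_all_iff.2 hs
      filter_upwards [h2, hlt] with x hx hx0
      funext i
      rw [← inf_Z hx0 i]
      simp only [hx]
    have hH : ∀ p : Fin d × ℕ, H K (uu p) = 0 := fun p =>
      (halt (uu p) fun i => (uu_pos p i).le).1 ha1
    refine ⟨a, ha, ?_⟩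
    have hl := law_family hn D (fun p : Fin d × ℕ => uu p) (fun p i => (uu_pos p i).le)
    set Φ : (Fin d × ℕ → ℝ) → (Fin d → ℝ) := fun v i => ⨅ N : ℕ, v (i, N) with hΦ
    have mΦ : Measurable Φ := by
      rw [hΦ, measurable_pi_iff]
      intro i
      exact Measurable.iInf fun N => measurable_pi_apply (i, N)
    have m1 : Measurable fun (x : Fin d → ℝ) (p : Fin d × ℕ) => a * Z x (uu p) :=
      measurable_pi_iff.2 fun p => (measurable_Z (uu p)).const_mul a
    have m2 : Measurable fun (ω : Fin n → Fin d → ℝ) (p : Fin d × ℕ) =>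
        Z (M ω) (uu p) + H K (uu p) :=
      measurable_pi_iff.2 fun p => ((measurable_Z (uu p)).comp measurable_M).add_const _
    have h2 := congrArg (fun κ => Measure.map Φ κ) hl
    rw [Measure.map_map mΦ m1, Measure.map_map mΦ m2] at h2
    have e1 : μ.map (Φ ∘ fun (x : Fin d → ℝ) (p : Fin d × ℕ) => a * Z x (uu p))
        = μ.map (fun x => a • x) := by
      apply Measure.map_congr
      filter_upwards [hlt] with x hx
      funext i
      show (⨅ N : ℕ, a * Z x (uu (i, N))) = a * x i
      have hx' : ∀ i, (a • x) i < 0 := fun i => mul_neg_of_pos_of_neg ha (hx i)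
      have := inf_Z hx' i
      simp only [Z_smul ha] at this
      exact this
    have e2 : (Measure.pi fun _ : Fin n => μ).map (Φ ∘ fun (ω : Fin n → Fin d → ℝ)
        (p : Fin d × ℕ) => Z (M ω) (uu p) + H K (uu p))
        = (Measure.pi fun _ : Fin n => μ).map (fun ω i => ⨆ k, ω k i) := by
      apply Measure.map_congr
      filter_upwards [ae_all μ n hlt] with ω hω
      funext i
      show (⨅ N : ℕ, (Z (M ω) (uu (i, N)) + H K (uu (i, N)))) = M ω i
      have hx' : ∀ i, M ω i < 0 := fun i => (sup_lt_iff hn _ _).2 fun k => hω k i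
      simp only [hH, add_zero]
      exact inf_Z hx' i
    rw [e1, e2] at h2
    exact h2

end Pool.Agent.X105.CS
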