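import Pool.Agent.X105.CS.Nec2

set_option autoImplicit false

namespace Pool.Agent.X105.CS

open MeasureTheory Set Filter Topology
open scoped Pointwise

variable {d : ℕ}

lemma eqLaw_of {Ω Ω' : Type} [MeasurableSpace Ω] [MeasurableSpace Ω']
    {P : Measure Ω} {A : Ω → Set (Fin d → ℝ)} {P' : Measure Ω'} {B : Ω' → Set (Fin d → ℝ)}
    (f : Ω → Fin d → ℝ) (g : Ω' → Fin d → ℝ) (hf : Measurable f) (hg : Measurable g)
    (h : P.map f = P'.map g) (hA : ∀ᵐ ω ∂P, A ω = hull (f ω)) (hB : ∀ᵐ ω ∂P', B ω = hull (g ω)) :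
    EqLaw P A P' B := by
  intro S hS
  have hS' : MeasurableSet ((fun x : Fin d → ℝ => (show CSet d from hull x)) ⁻¹' S) :=
    measurable_hull hS
  have e1 : P {ω | (show CSet d from A ω) ∈ S}
      = P.map f ((fun x : Fin d → ℝ => (show CSet d from hull x)) ⁻¹' S) := by
    rw [Measure.map_apply hf hS']
    apply measure_congr
    filter_upwards [hA] with ω hω
    apply propext
    show (show CSet d from A ω) ∈ S ↔ (show CSet d from hull (f ω)) ∈ S
    rw [hω]
  have e2 : P' {ω | (show CSet d from B ω) ∈ S}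
      = P'.map g ((fun x : Fin d → ℝ => (show CSet d from hull x)) ⁻¹' S) := by
    rw [Measure.map_apply hg hS']
    apply measure_congr
    filter_upwards [hB] with ω hω
    apply propext
    show (show CSet d from B ω) ∈ S ↔ (show CSet d from hull (g ω)) ∈ S
    rw [hω]
  rw [e1, e2, h]

lemma suf1 {μ : Measure (Fin d → ℝ)} (h : StrictMaxStable μ) : ConvexStable μ := by
  intro n hn
  obtain ⟨a, ha, hl⟩ := h n hn
  refine ⟨a, ha, {0}, isCompact_singleton, convex_singleton 0, singleton_nonempty 0, ?_⟩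
  refine eqLaw_of (fun x => a • x) (fun ω i => ⨆ k, ω k i) (by fun_prop) measurable_M hl
    (Eventually.of_forall fun x => hull_smul ha x) (Eventually.of_forall fun ω => ?_)
  show closure (convexHull ℝ (⋃ k, hull (ω k))) + {0} = _
  rw [hull_iUnion hn, singleton_zero, add_zero]

lemma suf2 {μ : Measure (Fin d → ℝ)} [IsProbabilityMeasure μ] (h1 : ∀ᵐ x ∂μ, ∃ i, 0 ≤ x i)
    (h : StrictMaxStable (μ.map pos)) : ConvexStable μ := by
  intro n hn
  have : Nonempty (Fin n) := ⟨⟨0, hn⟩⟩
  obtain ⟨a, ha, hl⟩ := h n hn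
  refine ⟨a, ha, {0}, isCompact_singleton, convex_singleton 0, singleton_nonempty 0, ?_⟩
  have m3 : Measurable fun (ω : Fin n → Fin d → ℝ) (k : Fin n) => pos (ω k) :=
    measurable_pi_iff.2 fun k => measurable_pos.comp (measurable_pi_apply k)
  have m4 : Measurable fun (ω : Fin n → Fin d → ℝ) (i : Fin d) => ⨆ k, ω k i := measurable_M
  rw [pi_pos, Measure.map_map m4 m3, Measure.map_map (by fun_prop) measurable_pos] at hl
  refine eqLaw_of ((fun x => a • x) ∘ pos)
    ((fun (ω : Fin n → Fin d → ℝ) (i : Fin d) => ⨆ k, ω k i) ∘ fun ω k => pos (ω k))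
    (Measurable.comp (by fun_prop) measurable_pos) (m4.comp m3) hl ?_ ?_
  · filter_upwards [h1] with x hx
    rw [hull_pos hx, hull_smul ha]
    rfl
  · filter_upwards [ae_all μ n h1] with ω hω
    rw [hull_iUnion hn, singleton_zero, add_zero, hull_pos]
    · congr 1
      funext i
      exact sup_max hn fun k => ω k i
    · obtain ⟨i, hi⟩ := hω ⟨0, hn⟩
      exact ⟨i, hi.trans (le_ciSup (f := fun k => ω k i) (Finite.bddAbove_range _) _)⟩

/-- the polytope with vertices `r_i e_i` -/
def C (r : Fin d → ℝ) : Set (Fin d → ℝ) := convexHull ℝ (range fun i => (Pi.single i (r i) : Fin d → ℝ))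

lemma C_compact (r : Fin d → ℝ) : IsCompact (C r) := (finite_range _).isCompact_convexHull ℝ

lemma C_subset (r : Fin d → ℝ) : C r ⊆ hull r := by
  refine convexHull_min ?_ (hull_convex r)
  rintro _ ⟨i, rfl⟩
  exact rays_subset_hull r ⟨i, r i, le_rfl, rfl⟩

lemma hull_add_C {r : Fin d → ℝ} {m b : ℝ} (hm : 0 < m) (hb : 0 ≤ b) :
    hull (m • r) + b • C r = hull ((m + b) • r) := by
  apply Subset.antisymm
  · rw [← hull_smul hm, ← hull_smul (by linarith), (hull_convex r).add_smul hm.le hb]
    exact add_subset_add_left (smul_set_mono (C_subset r))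
  · have hc : IsCompact (b • C r) := (C_compact r).smul b
    refine hull_min ?_ ((hull_closed _).add_right_of_isCompact hc)
      ((hull_convex _).add ((convex_convexHull ℝ _).smul b))
    rintro _ ⟨i, t, ht, rfl⟩
    have ht' : t ≤ (m + b) * r i := ht
    refine ⟨Pi.single i (t - b * r i), rays_subset_hull _ ⟨i, t - b * r i, ?_, rfl⟩,
      b • Pi.single i (r i), ⟨_, subset_convexHull ℝ _ ⟨i, rfl⟩, rfl⟩, ?_⟩
    · show t - b * r i ≤ m * r i
      linarith
    · show (Pi.single i (t - b * r i) : Fin d → ℝ) + b • Pi.single i (r i) = _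
      rw [← Pi.single_smul, ← Pi.single_add, smul_eq_mul, sub_add_cancel]

lemma suf3 {μ : Measure (Fin d → ℝ)} [IsProbabilityMeasure μ] (h : ShiftedType μ) :
    ConvexStable μ := by
  obtain ⟨l, r, ρ, hl, hr, hr0, hρ, hnn, hst, hlaw⟩ := h
  intro n hn
  have : Nonempty (Fin n) := ⟨⟨0, hn⟩⟩
  obtain ⟨a, ha1, hst⟩ := hst n hn
  have ha : 0 < a := by linarith
  obtain ⟨i, hi⟩ : ∃ i, r i ≠ 0 := by
    by_contra hcon
    push Not at hcon
    exact hr0 (funext hcon)
  have hri : 0 < r i := lt_of_le_of_ne (hr i) (Ne.symm hi)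
  have : Nonempty (Fin d) := ⟨i⟩
  set b : ℝ := (a - 1) * l with hb
  have hb0 : 0 ≤ b := mul_nonneg (by linarith) hl.le
  refine ⟨a, ha, b • C r, (C_compact r).smul b, (convex_convexHull ℝ _).smul b, ?_, ?_⟩
  · exact ⟨b • Pi.single i (r i), _, subset_convexHull ℝ _ ⟨i, rfl⟩, rfl⟩
  set s : (Fin d → ℝ) → ℝ := fun x => pos x i / r i with hs
  have ms : Measurable s := ((measurable_pi_apply i).comp measurable_pos).div_const _
  have mφ : Measurable fun (z : ℝ) (j : Fin d) => (l + z) * r j := by
    rw [measurable_pi_iff]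
    intro j
    fun_prop
  -- almost surely `pos x = s x • r`, `s x ≥ l`
  have hprop : ∀ᵐ x ∂μ, pos x = s x • r ∧ l ≤ s x := by
    have hC : MeasurableSet {v : Fin d → ℝ | v = (v i / r i) • r ∧ l ≤ v i / r i} := by
      have q1 : Measurable fun v : Fin d → ℝ => (v i / r i) • r := by
        rw [measurable_pi_iff]
        intro j
        show Measurable fun v : Fin d → ℝ => v i / r i * r j
        fun_prop
      have q2 : Measurable fun v : Fin d → ℝ => v i / r i := by fun_prop
      exact (measurableSet_eq_fun measurable_id q1).inter (measurableSet_le measurable_const q2)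
    have h1 : ∀ᵐ v ∂(ρ.map fun z j => (l + z) * r j), v = (v i / r i) • r ∧ l ≤ v i / r i := by
      refine (ae_map_iff mφ.aemeasurable hC).2 ?_
      filter_upwards [hnn] with z hz
      have e1 : (l + z) * r i / r i = l + z := by field_simp
      refine ⟨?_, ?_⟩
      · rw [e1]
        rfl
      · rw [e1]
        linarith
    rw [← hlaw] at h1
    exact (ae_map_iff measurable_pos.aemeasurable hC).1 h1
  -- the law of `s`
  have hslaw : μ.map s = ρ.map fun z => l + z := by
    have m7 : Measurable fun v : Fin d → ℝ => v i / r i := by fun_prop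
    have h1 := congrArg (fun κ => Measure.map (fun v : Fin d → ℝ => v i / r i) κ) hlaw
    rw [Measure.map_map m7 measurable_pos, Measure.map_map m7 mφ] at h1
    have e1 : ((fun v : Fin d → ℝ => v i / r i) ∘ fun (z : ℝ) (j : Fin d) => (l + z) * r j)
        = fun z => l + z := by
      funext z
      show (l + z) * r i / r i = l + z
      field_simp
    rw [e1] at h1
    exact h1
  have mlz : Measurable fun z : ℝ => l + z := by fun_prop
  have hσ : IsProbabilityMeasure (μ.map s) := Measure.isProbabilityMeasure_map ms.aemeasurable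
  have hσ' : IsProbabilityMeasure (ρ.map fun z => l + z) :=
    Measure.isProbabilityMeasure_map mlz.aemeasurable
  have hpiμ : (Measure.pi fun _ : Fin n => μ.map s)
      = (Measure.pi fun _ : Fin n => μ).map (fun ω k => s (ω k)) :=
    (Measure.pi_map_pi (μ := fun _ : Fin n => μ) (f := fun _ => s)
      (fun _ => ms.aemeasurable)).symm
  have hpiρ : (Measure.pi fun _ : Fin n => ρ.map fun z => l + z)
      = (Measure.pi fun _ : Fin n => ρ).map (fun ω k => l + ω k) :=
    (Measure.pi_map_pi (μ := fun _ : Fin n => ρ) (f := fun _ z => l + z)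
      (fun _ => mlz.aemeasurable)).symm
  have m8 : Measurable fun (ω : Fin n → Fin d → ℝ) (k : Fin n) => s (ω k) :=
    measurable_pi_iff.2 fun k => ms.comp (measurable_pi_apply k)
  have m9 : Measurable fun (ω : Fin n → ℝ) (k : Fin n) => l + ω k := by
    rw [measurable_pi_iff]
    intro k
    fun_prop
  have hlaw1 : μ.map (fun x => a * s x) = (Measure.pi fun _ : Fin n => μ).map
      (fun ω => (⨆ k, s (ω k)) + b) := by
    have h1 : μ.map (fun x => a * s x) = (ρ.map fun z => a * z).map (fun z => z + a * l) := by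
      have : (fun x => a * s x) = (fun z => a * z) ∘ s := rfl
      rw [this, ← Measure.map_map (by fun_prop) ms, hslaw, Measure.map_map (by fun_prop) mlz,
        Measure.map_map (by fun_prop) (by fun_prop)]
      congr 1
      funext z
      simp only [Function.comp]
      ring
    have h2 : (Measure.pi fun _ : Fin n => μ).map (fun ω => (⨆ k, s (ω k)) + b)
        = ((Measure.pi fun _ : Fin n => ρ).map (fun ω => ⨆ k, ω k)).map (fun z => z + a * l) := by
      have : (fun ω : Fin n → Fin d → ℝ => (⨆ k, s (ω k)) + b)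
          = (fun ω : Fin n → ℝ => (⨆ k, ω k) + b) ∘ fun ω k => s (ω k) := rfl
      rw [this, ← Measure.map_map (measurable_sup.add_const _) m8, ← hpiμ]
      have h3 : (Measure.pi fun _ : Fin n => μ.map s)
          = (Measure.pi fun _ : Fin n => ρ.map fun z => l + z) := by rw [hslaw]
      rw [h3, hpiρ, Measure.map_map (measurable_sup.add_const _) m9,
        Measure.map_map (by fun_prop) measurable_sup]
      congr 1
      funext ω
      simp only [Function.comp]
      have h4 := sup_affine hn (fun k => ω k) (fun k => l + ω k) 1 l zero_le_one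
        (fun k => by ring)
      rw [h4, hb]
      ring
    rw [h1, h2, hst]
  have mr : Measurable fun c : ℝ => c • r := by
    rw [measurable_pi_iff]
    intro j
    show Measurable fun c : ℝ => c * r j
    fun_prop
  have m10 : Measurable fun ω : Fin n → Fin d → ℝ => (⨆ k, s (ω k)) + b :=
    (measurable_sup.comp m8).add_const _
  refine eqLaw_of ((fun c : ℝ => c • r) ∘ fun x => a * s x)
    ((fun c : ℝ => c • r) ∘ fun ω => (⨆ k, s (ω k)) + b)
    (mr.comp (ms.const_mul a)) (mr.comp m10) ?_ ?_ ?_
  · rw [← Measure.map_map mr (ms.const_mul a), ← Measure.map_map mr m10]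
    exact congrArg (fun κ => Measure.map (fun c : ℝ => c • r) κ) hlaw1
  · filter_upwards [hprop] with x hx
    have hex : ∃ j, 0 ≤ x j := by
      refine ⟨i, ?_⟩
      by_contra hcon
      push Not at hcon
      have h1 : s x = 0 := by
        show max (x i) 0 / r i = 0
        rw [max_eq_right hcon.le, zero_div]
      linarith [hx.2]
    have h2 : hull x = hull (s x • r) := by
      rw [hull_pos hex]
      exact congrArg hull hx.1
    rw [h2, hull_smul ha, smul_smul]
    rfl
  · filter_upwards [ae_all μ n hprop] with ω hω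
    have hsup : l ≤ ⨆ k, s (ω k) := (hω ⟨0, hn⟩).2.trans
      (le_ciSup (f := fun k => s (ω k)) (Finite.bddAbove_range _) _)
    have hMpos : pos (M ω) = (⨆ k, s (ω k)) • r := by
      funext j
      show max (⨆ k, ω k j) 0 = (⨆ k, s (ω k)) * r j
      rw [sup_max hn]
      have h3 : ∀ k, max (ω k j) 0 = r j * s (ω k) + 0 := by
        intro k
        have := congrFun (hω k).1 j
        have h4 : max (ω k j) 0 = s (ω k) * r j := this
        rw [h4]
        ring
      rw [sup_affine hn (fun k => s (ω k)) (fun k => max (ω k j) 0) (r j) 0 (hr j) h3]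
      ring
    have hex : ∃ j, 0 ≤ M ω j := by
      refine ⟨i, ?_⟩
      by_contra hcon
      push Not at hcon
      have h1 : pos (M ω) i = 0 := max_eq_right hcon.le
      rw [hMpos] at h1
      have h2 : (⨆ k, s (ω k)) * r i = 0 := h1
      have h3 : 0 < (⨆ k, s (ω k)) * r i := mul_pos (by linarith) hri
      linarith
    rw [hull_iUnion hn]
    have h5 : hull (fun i => ⨆ k, ω k i) = hull ((⨆ k, s (ω k)) • r) := by
      rw [← hMpos]
      exact hull_pos hex
    rw [h5, hull_add_C (by linarith) hb0]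
    rfl

/-! ### Dimension one -/

lemma hull_one (x : Fin 1 → ℝ) : hull x = {y | y 0 ≤ x 0} := by
  apply Subset.antisymm
  · refine hull_min ?_ (isClosed_le (by fun_prop) continuous_const) ?_
    · rintro _ ⟨i, t, ht, rfl⟩
      rw [Subsingleton.elim i 0] at *
      simpa using ht
    · intro y hy z hz α β hα hβ hαβ
      have h1 : y 0 ≤ x 0 := hy
      have h2 : z 0 ≤ x 0 := hz
      show α * y 0 + β * z 0 ≤ x 0
      calc α * y 0 + β * z 0 ≤ α * x 0 + β * x 0 := by gcongr
        _ = x 0 := by rw [← add_mul, hαβ, one_mul]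
  · intro y hy
    refine rays_subset_hull x ⟨0, y 0, hy, ?_⟩
    funext j
    rw [Subsingleton.elim j 0]
    simp

lemma dim_one (μ : Measure (Fin 1 → ℝ)) [IsProbabilityMeasure μ] :
    ConvexStable μ ↔ ∀ n : ℕ, 1 ≤ n → ∃ a b : ℝ, 0 < a ∧
      μ.map (fun x => a • x)
        = (Measure.pi fun _ : Fin n => μ).map (fun ω i => (⨆ k, ω k i) + b) := by
  constructor
  · intro h n hn
    obtain ⟨a, ha, K, hKc, hKv, hKn, hlaw⟩ := h n hn
    have D : Dat μ n a K := ⟨ha, hKc, hKv, hKn, hlaw⟩
    refine ⟨a, H K (e 0), ha, ?_⟩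
    have hl := law_family hn D (fun j : Fin 1 => e j) (fun j => e_nonneg j)
    have hZ : ∀ (x : Fin 1 → ℝ) (j : Fin 1), Z x (e j) = x j := by
      intro x j
      rw [Subsingleton.elim j 0]
      unfold Z
      rw [ciSup_unique]
      have : (default : Fin 1) = 0 := rfl
      rw [this]
      simp [e]
    have e1 : (fun x : Fin 1 → ℝ => a • x) = fun x j => a * Z x (e j) := by
      funext x j
      rw [hZ]
      rfl
    have e2 : (fun (ω : Fin n → Fin 1 → ℝ) (i : Fin 1) => (⨆ k, ω k i) + H K (e 0))
        = fun ω j => Z (M ω) (e j) + H K (e j) := by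
      funext ω j
      rw [hZ, Subsingleton.elim j 0]
      rfl
    rw [e1, e2]
    exact hl
  · intro h n hn
    obtain ⟨a, b, ha, hl⟩ := h n hn
    refine ⟨a, ha, {fun _ => b}, isCompact_singleton, convex_singleton _, singleton_nonempty _, ?_⟩
    have m1 : Measurable fun (ω : Fin n → Fin 1 → ℝ) (i : Fin 1) => (⨆ k, ω k i) + b := by
      rw [measurable_pi_iff]
      intro i
      exact ((measurable_pi_apply i).comp measurable_M).add_const _
    refine eqLaw_of (fun x => a • x) (fun ω i => (⨆ k, ω k i) + b) (by fun_prop) m1 hl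
      (Eventually.of_forall fun x => hull_smul ha x) (Eventually.of_forall fun ω => ?_)
    show closure (convexHull ℝ (⋃ k, hull (ω k))) + {fun _ => b} = _
    rw [hull_iUnion hn, hull_one, hull_one]
    ext y
    rw [add_singleton]
    constructor
    · rintro ⟨z, hz, rfl⟩
      have hz' : z 0 ≤ ⨆ k, ω k 0 := hz
      show z 0 + b ≤ (⨆ k, ω k 0) + b
      linarith
    · intro hy
      have hy' : y 0 ≤ (⨆ k, ω k 0) + b := hy
      refine ⟨fun i => y i - b, ?_, ?_⟩
      · show y 0 - b ≤ ⨆ k, ω k 0
        linarith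
      · funext i
        show y i - b + b = y i
        ring

theorem classification (d : ℕ) (hd : 2 ≤ d) (μ : Measure (Fin d → ℝ))
    (hμ : IsProbabilityMeasure μ) :
    ConvexStable μ ↔
      ((∀ᵐ x ∂μ, ∀ i, x i < 0) ∧ StrictMaxStable μ) ∨
      ((∀ᵐ x ∂μ, ∃ i, 0 ≤ x i) ∧ StrictMaxStable (μ.map pos)) ∨
      ShiftedType μ := by
  constructor
  · intro h
    have h' : ∀ n : ℕ, 1 ≤ n → ∃ a K, Dat μ n a K := by
      intro n hn
      obtain ⟨a, ha, K, hKc, hKv, hKn, hlaw⟩ := h n hn
      exact ⟨a, K, ⟨ha, hKc, hKv, hKn, hlaw⟩⟩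
    have : Nonempty (Fin d) := ⟨⟨0, by omega⟩⟩
    by_cases hp : ∃ i : Fin d, μ {x | x i ≤ 0} = 0
    · obtain ⟨i, hi⟩ := hp
      have hi' : ∀ᵐ x ∂μ, 0 < x i := by
        rw [ae_iff]
        simpa only [not_lt] using hi
      exact Or.inr (caseA hd h' i hi')
    · push Not at hp
      have hneg : ∀ i : Fin d, ∀ᵐ x ∂μ, x i ≤ 0 := by
        intro i
        obtain ⟨a, K, D⟩ := h' 2 (by norm_num)
        have h2 := (b_zero hd (by norm_num) D i (hp i)).2
        have h3 : μ {x | x i ≤ 0} = 1 := by
          rw [pow_two] at h2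
          have h4 : μ {x | x i ≤ 0} * 1 = μ {x | x i ≤ 0} * μ {x | x i ≤ 0} := by
            rw [mul_one]; exact h2
          exact ((ENNReal.mul_right_inj (hp i) (measure_ne_top _ _)).1 h4).symm
        have hms : MeasurableSet {x : Fin d → ℝ | x i ≤ 0} :=
          measurableSet_le (measurable_pi_apply i) measurable_const
        exact (prob_compl_eq_zero_iff hms).2 h3
      rcases caseB hd h' hneg with h1 | h1
      · exact Or.inl h1
      · exact Or.inr (Or.inl h1)
  · rintro (⟨_, h⟩ | ⟨h1, h2⟩ | h)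
    · exact suf1 h
    · exact suf2 h1 h2
    · exact suf3 h

end Pool.Agent.X105.CS
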